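import Pool.Agent.Work.MP_1c6e58_ag.LAD.Stmts

set_option autoImplicit false

open Finset

namespace Pool.Agent.LAD

open Pool.Agent.SH Pool.Agent.COV

namespace XCNTS

section

variable {σ : Type} [Fintype σ]

open Classical in
/-- The exponents of degree `i` with support `F`. -/
noncomputable def S (F : Finset σ) (i : ℕ) : Finset (σ →₀ ℕ) :=
  (Finset.univ.finsuppAntidiag i).filter (fun α : σ →₀ ℕ => α.support = F)

theorem gF_eq (F : Finset σ) (i : ℕ) : gF F i = (S F i).card := rfl

theorem mem_S (F : Finset σ) (i : ℕ) (α : σ →₀ ℕ) :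
    α ∈ S F i ↔ ∑ x, α x = i ∧ α.support = F := by
  classical
  simp [S, Finset.mem_finsuppAntidiag]

theorem sum_add_single (β : σ →₀ ℕ) (c : σ) :
    (∑ x, (β + Finsupp.single c 1 : σ →₀ ℕ) x) = (∑ x, β x) + 1 := by
  classical
  simp only [Finsupp.add_apply, Finset.sum_add_distrib, Finsupp.single_apply]
  simp

open Classical in
theorem step (F : Finset σ) (c : σ) (hc : c ∉ F) (i : ℕ) :
    (S (insert c F) (i + 1)).card = (S F i).card + (S (insert c F) i).card := by
  have hdis : Disjoint (S F i) (S (insert c F) i) := by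
    rw [Finset.disjoint_left]
    intro α h1 h2
    rw [mem_S] at h1 h2
    apply hc
    rw [← h1.2, h2.2]
    exact Finset.mem_insert_self _ _
  rw [← Finset.card_union_of_disjoint hdis]
  have hinj : Function.Injective (fun β : σ →₀ ℕ => β + Finsupp.single c 1) :=
    fun a b h => add_right_cancel h
  rw [← Finset.card_image_of_injective (S F i ∪ S (insert c F) i) hinj]
  congr 1
  ext α
  rw [mem_S, Finset.mem_image]
  constructor
  · rintro ⟨h1, h2⟩
    have hcα : α c ≠ 0 := by
      have : c ∈ α.support := by rw [h2]; exact Finset.mem_insert_self _ _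
      exact Finsupp.mem_support_iff.1 this
    have hle : Finsupp.single c 1 ≤ α := by
      rw [Finsupp.single_le_iff]
      omega
    obtain ⟨β, hβ⟩ : ∃ β : σ →₀ ℕ, β + Finsupp.single c 1 = α :=
      ⟨α - Finsupp.single c 1, tsub_add_cancel_of_le hle⟩
    subst hβ
    refine ⟨β, ?_, rfl⟩
    have hsum : (∑ x, β x) = i := by
      rw [sum_add_single] at h1
      omega
    have hsup : ∀ x, x ∈ β.support ↔ (x ≠ c ∧ x ∈ F) ∨ (x = c ∧ β c ≠ 0) := by
      intro x
      rw [Finsupp.mem_support_iff]
      by_cases hx : x = c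
      · subst hx; simp
      · have h3 : (β + Finsupp.single c 1 : σ →₀ ℕ) x ≠ 0 ↔ x ∈ insert c F := by
          rw [← h2, Finsupp.mem_support_iff]
        rw [Finsupp.add_apply, Finsupp.single_apply, if_neg (Ne.symm hx), add_zero] at h3
        rw [h3, Finset.mem_insert]
        tauto
    rw [Finset.mem_union, mem_S, mem_S]
    by_cases h0 : β c = 0
    · left
      refine ⟨hsum, ?_⟩
      ext x
      rw [hsup x]
      constructor
      · rintro (h | h)
        · exact h.2
        · exact absurd h0 h.2
      · intro h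
        exact Or.inl ⟨fun e => hc (e ▸ h), h⟩
    · right
      refine ⟨hsum, ?_⟩
      ext x
      rw [hsup x, Finset.mem_insert]
      constructor
      · rintro (h | h)
        · exact Or.inr h.2
        · exact Or.inl h.1
      · rintro (h | h)
        · exact Or.inr ⟨h, h0⟩
        · exact Or.inl ⟨fun e => hc (e ▸ h), h⟩
  · rintro ⟨β, hβ, rfl⟩
    have hb : ∑ x, β x = i ∧ (β.support = F ∨ β.support = insert c F) := by
      rw [Finset.mem_union, mem_S, mem_S] at hβ
      tauto
    refine ⟨by rw [sum_add_single, hb.1], ?_⟩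
    ext x
    rw [Finsupp.mem_support_iff, Finset.mem_insert]
    by_cases hx : x = c
    · subst hx
      simp
    · rw [Finsupp.add_apply, Finsupp.single_apply, if_neg (Ne.symm hx), add_zero,
        ← Finsupp.mem_support_iff]
      rcases hb.2 with h | h <;> rw [h]
      · simp [hx]
      · rw [Finset.mem_insert]

open Classical in
theorem zero (F : Finset σ) (c : σ) : (S (insert c F) 0).card = 0 := by
  rw [Finset.card_eq_zero, Finset.eq_empty_iff_forall_notMem]
  intro α h
  rw [mem_S] at h
  have h0 : α c = 0 := Finset.sum_eq_zero_iff.1 h.1 c (Finset.mem_univ _)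
  have : c ∈ α.support := by rw [h.2]; exact Finset.mem_insert_self _ _
  exact Finsupp.mem_support_iff.1 this h0

theorem empt (i : ℕ) : (S (∅ : Finset σ) i).card = if i = 0 then 1 else 0 := by
  have : ∀ α : σ →₀ ℕ, α ∈ S (∅ : Finset σ) i ↔ α = 0 ∧ i = 0 := by
    intro α
    rw [mem_S, Finsupp.support_eq_empty]
    constructor
    · rintro ⟨h1, h2⟩
      subst h2
      simp at h1
      exact ⟨rfl, h1.symm⟩
    · rintro ⟨h1, h2⟩
      subst h1
      simp [h2]
  split_ifs with h
  · rw [Finset.card_eq_one]
    refine ⟨0, ?_⟩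
    ext α
    rw [this, Finset.mem_singleton]
    tauto
  · rw [Finset.card_eq_zero, Finset.eq_empty_iff_forall_notMem]
    intro α hα
    exact h ((this α).1 hα).2

end

end XCNTS

theorem I_CNTS : St_CNTS := by
  classical
  intro σ _ F
  induction F using Finset.induction_on with
  | empty =>
    rw [Finset.card_empty, pow_zero, pow_zero, mul_one]
    ext i
    rw [PowerSeries.coeff_mk, XCNTS.gF_eq, XCNTS.empt, PowerSeries.coeff_one]
    split_ifs <;> simp
  | insert c F hc ih =>
    rw [Finset.card_insert_of_notMem hc, pow_succ', pow_succ', ← mul_assoc, ← ih, ← mul_assoc]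
    congr 1
    ext i
    rw [mul_sub, mul_one, map_sub, PowerSeries.coeff_mk, XCNTS.gF_eq]
    rcases i with _ | i
    · rw [PowerSeries.coeff_zero_mul_X, PowerSeries.coeff_zero_X_mul]
      have := XCNTS.zero F c
      simp only [this]
      simp
    · rw [PowerSeries.coeff_succ_mul_X, PowerSeries.coeff_succ_X_mul, PowerSeries.coeff_mk,
        PowerSeries.coeff_mk, XCNTS.gF_eq, XCNTS.gF_eq]
      have := XCNTS.step F c hc i
      push_cast [this]
      ring

end Pool.Agent.LAD
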