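import Pool.Agent.Work.MP_1c6e58_ag.LAD.Stmts

/-!
MP_1c6e58_ag, project COV, ladder half, item CURVE: curves in the ladder variety.
-/

set_option autoImplicit false

open Finset

namespace Pool.Agent.LAD

open Pool.Agent.SH Pool.Agent.COV

namespace XCURVE

/-- The matrix of polynomials. -/
noncomputable def Mat {Q : Type} [Fintype Q] (A B ρ : Q → ℕ) (L : ℕ) (u t : ℕ → ℕ → ℕ) (ξ η : ℕ → ℕ → ℂ)
    (c : ℕ × ℕ) : Polynomial ℂ :=
  ∑ l ∈ range L, Polynomial.C (mask A B ρ (l + 1) c * (ξ l c.1 * η l c.2)) *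
    Polynomial.X ^ (u l c.1 + t l c.2)

theorem coeff_Mat {Q : Type} [Fintype Q] (A B ρ : Q → ℕ) (L : ℕ) (u t : ℕ → ℕ → ℕ) (ξ η : ℕ → ℕ → ℂ)
    (c : ℕ × ℕ) (i : ℕ) : (Mat A B ρ L u t ξ η c).coeff i =
      ∑ l ∈ range L, if i = u l c.1 + t l c.2 then
        mask A B ρ (l + 1) c * (ξ l c.1 * η l c.2) else 0 := by
  unfold Mat
  rw [Polynomial.finsetSum_coeff]
  exact Finset.sum_congr rfl fun l _ => Polynomial.coeff_C_mul_X_pow _ _ _

theorem eval_Mat {Q : Type} [Fintype Q] (A B ρ : Q → ℕ) (L : ℕ) (u t : ℕ → ℕ → ℕ) (ξ η : ℕ → ℕ → ℂ)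
    (c : ℕ × ℕ) (T : ℂ) : (Mat A B ρ L u t ξ η c).eval T =
      ∑ l ∈ range L, mask A B ρ (l + 1) c * (ξ l c.1 * η l c.2) * T ^ (u l c.1 + t l c.2) := by
  unfold Mat
  rw [Polynomial.eval_finsetSum]
  exact Finset.sum_congr rfl fun l _ => by
    rw [Polynomial.eval_mul, Polynomial.eval_C, Polynomial.eval_pow, Polynomial.eval_X]

end XCURVE

open XCURVE in
theorem I_CURVE (hLEV : St_LEV) (hR1N : St_R1N) (hMASK : St_MASK) : St_CURVE := by
  classical
  intro Q _ A B ρ hL F hG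
  obtain ⟨lev, lev1, levD, levC⟩ := hLEV F
  have levρ : ∀ c ∈ F, ∀ q, c.1 < A q → c.2 < B q → lev c ≤ ρ q := by
    intro c hc q h1 h2
    by_contra h
    exact hG.nch q (levC c hc (A q) (B q) h1 h2 (ρ q + 1) (by omega))
  -- the bounds
  obtain ⟨L, hLρ, hLlev⟩ : ∃ L : ℕ, (∀ q, ρ q ≤ L) ∧ ∀ c ∈ F, lev c ≤ L :=
    ⟨∑ q, ρ q + F.sup lev, fun q => (Finset.single_le_sum (f := ρ) (fun _ _ => Nat.zero_le _)
      (mem_univ q)).trans (Nat.le_add_right _ _),
      fun c hc => (Finset.le_sup hc).trans (Nat.le_add_left _ _)⟩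
  obtain ⟨N, hN⟩ : ∃ N : ℕ, ∀ c ∈ YY A B, c.1 < N ∧ c.2 < N := by
    refine ⟨∑ q, (A q + B q), fun c hc => ?_⟩
    obtain ⟨q, h1, h2⟩ := (mem_YY c).1 hc
    have := Finset.single_le_sum (f := fun q => A q + B q) (fun _ _ => Nat.zero_le _)
      (mem_univ q)
    have := this
    omega
  have hGl : ∀ l : ℕ, ∃ K0 : ℕ, ∀ K, K0 ≤ K → ∃ u t : ℕ → ℕ,
      (∀ c ∈ F.filter (fun c => lev c = l + 1), u c.1 + t c.2 + 2 * c.1 * c.2 = K) ∧
      (∀ a b : ℕ, a < N → b < N → (a, b) ∉ F.filter (fun c => lev c = l + 1) →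
        K + 1 ≤ u a + t b + 2 * a * b) ∧
      ∀ y : ℕ × ℕ → ℂ, (∀ c ∈ F.filter (fun c => lev c = l + 1), y c ≠ 0) →
        ∃ ξ η : ℕ → ℂ, ∀ c ∈ F.filter (fun c => lev c = l + 1), ξ c.1 * η c.2 = y c := by
    intro l
    refine hR1N N (F.filter (fun c => lev c = l + 1)) ?_ ?_
    · intro c hc
      exact hN c (hG.sub (mem_filter.1 hc).1)
    · intro c hc c' hc' hD
      have h := levD c (mem_filter.1 hc).1 c' (mem_filter.1 hc').1 hD
      rw [(mem_filter.1 hc).2, (mem_filter.1 hc').2] at h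
      exact lt_irrefl _ h
  choose K0 hK0 using hGl
  refine ⟨(range L).sup K0, fun K hK y hy => ?_⟩
  have hlev : ∀ l : ℕ, ∃ u t : ℕ → ℕ, ∃ ξ η : ℕ → ℂ, l < L →
      (∀ c ∈ F.filter (fun c => lev c = l + 1), u c.1 + t c.2 + 2 * c.1 * c.2 = K) ∧
      (∀ a b : ℕ, a < N → b < N → (a, b) ∉ F.filter (fun c => lev c = l + 1) →
        K + 1 ≤ u a + t b + 2 * a * b) ∧
      ∀ c ∈ F.filter (fun c => lev c = l + 1), ξ c.1 * η c.2 = y c := by
    intro l
    by_cases hl : l < L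
    · obtain ⟨u, t, h1, h2, h3⟩ := hK0 l K ((Finset.le_sup (mem_range.2 hl)).trans hK)
      obtain ⟨ξ, η, h4⟩ := h3 y fun c hc => hy c (mem_filter.1 hc).1
      exact ⟨u, t, ξ, η, fun _ => ⟨h1, h2, h4⟩⟩
    · exact ⟨0, 0, 0, 0, fun h => absurd h hl⟩
  choose u t ξ η hU using hlev
  -- the exponents
  have hin : ∀ c ∈ F, ∀ l, l < L → lev c = l + 1 → u l c.1 + t l c.2 + 2 * c.1 * c.2 = K :=
    fun c hc l hl h => (hU l hl).1 c (mem_filter.2 ⟨hc, h⟩)
  have hout : ∀ c ∈ YY A B, ∀ l, l < L → ¬ (c ∈ F ∧ lev c = l + 1) →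
      K + 1 ≤ u l c.1 + t l c.2 + 2 * c.1 * c.2 :=
    fun c hc l hl h => (hU l hl).2.1 c.1 c.2 (hN c hc).1 (hN c hc).2
      fun h' => h (mem_filter.1 h')
  refine ⟨Mat A B ρ L u t ξ η, ?_, ?_, ?_⟩
  · intro T q
    have hm : ∀ l : Fin (ρ q), ∃ f g : ℕ → ℂ, ∀ c : ℕ × ℕ, c.1 < A q → c.2 < B q →
        mask A B ρ (l + 1) c = f c.1 * g c.2 :=
      fun l => hMASK Q A B ρ hL q (l + 1) l.2
    choose f g hfg using hm
    refine ⟨fun l a => f l a * ξ l a * T ^ (u l a), fun l b => g l b * η l b * T ^ (t l b),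
      fun c h1 h2 => ?_⟩
    simp only
    rw [eval_Mat]
    have hsub : range (ρ q) ⊆ range L := range_subset_range.2 (hLρ q)
    rw [← Finset.sum_subset hsub, ← Fin.sum_univ_eq_sum_range (fun l =>
      mask A B ρ (l + 1) c.1 * (ξ l c.1.1 * η l c.1.2) * T ^ (u l c.1.1 + t l c.1.2))]
    · refine Finset.sum_congr rfl fun l _ => ?_
      rw [hfg l c.1 h1 h2, pow_add]
      ring
    · intro l _ hl
      have : mask A B ρ (l + 1) c.1 = 0 := by
        unfold mask
        rw [if_pos ⟨q, h1, h2, by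
          have := mem_range.not.1 hl
          omega⟩]
      rw [this]
      ring
  · intro c hc
    have hcY := hG.sub hc
    refine ⟨fun i hi => ?_, fun i hi => ?_⟩
    · rw [coeff_Mat]
      refine Finset.sum_eq_zero fun l hl => if_neg fun h => ?_
      by_cases h' : lev c = l + 1
      · have := hin c hc l (mem_range.1 hl) h'
        rw [← h] at this
        omega
      · have := hout c hcY l (mem_range.1 hl) fun h'' => h' h''.2
        rw [← h] at this
        omega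
    · rw [coeff_Mat]
      have h1 := lev1 c hc
      have hl0 : lev c - 1 < L := by
        have := hLlev c hc
        omega
      have he : lev c = (lev c - 1) + 1 := by omega
      rw [Finset.sum_eq_single_of_mem (lev c - 1) (mem_range.2 hl0)]
      · have hk := hin c hc (lev c - 1) hl0 he
        rw [if_pos (by
          generalize 2 * c.1 * c.2 = z at hk hi
          omega)]
        have hmk : mask A B ρ (lev c - 1 + 1) c = 1 := by
          unfold mask
          rw [if_neg]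
          rintro ⟨q, a1, a2, a3⟩
          have := levρ c hc q a1 a2
          omega
        rw [hmk, one_mul]
        exact (hU (lev c - 1) hl0).2.2 c (mem_filter.2 ⟨hc, he⟩)
      · intro l hl hne
        refine if_neg fun h => ?_
        have := hout c hcY l (mem_range.1 hl) fun h'' => hne (by omega)
        rw [← h] at this
        omega
  · intro c hcY hc i hi
    rw [coeff_Mat]
    refine Finset.sum_eq_zero fun l hl => if_neg fun h => ?_
    have := hout c hcY l (mem_range.1 hl) fun h'' => hc h''.1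
    rw [← h] at this
    omega

end Pool.Agent.LAD
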