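import Pool.Agent.Work.MP_1c6e58_ag.LAD.Stmts

/-!
MP_1c6e58_ag, project COV, ladder half, item DETZ: vanishing of minors.
-/

set_option autoImplicit false

open Finset

namespace Pool.Agent.LAD

open Pool.Agent.SH Pool.Agent.COV

theorem I_DETZ : St_DETZ := by
  intro r f g a b
  have hM : (Matrix.of fun i j : Fin (r + 1) => ∑ l, f l (a i) * g l (b j)) =
      (Matrix.of fun (i : Fin (r + 1)) (l : Fin r) => f l (a i)) *
        (Matrix.of fun (l : Fin r) (j : Fin (r + 1)) => g l (b j)) := by
    ext i j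
    simp [Matrix.mul_apply]
  rw [hM]
  by_contra hne
  have hu : IsUnit ((Matrix.of fun (i : Fin (r + 1)) (l : Fin r) => f l (a i)) *
        (Matrix.of fun (l : Fin r) (j : Fin (r + 1)) => g l (b j))) :=
    (Matrix.isUnit_iff_isUnit_det _).2 (isUnit_iff_ne_zero.2 hne)
  have h1 := Matrix.rank_of_isUnit _ hu
  have h2 := Matrix.rank_mul_le_left
    (Matrix.of fun (i : Fin (r + 1)) (l : Fin r) => f l (a i))
    (Matrix.of fun (l : Fin r) (j : Fin (r + 1)) => g l (b j))
  have h3 := Matrix.rank_le_width (Matrix.of fun (i : Fin (r + 1)) (l : Fin r) => f l (a i))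
  rw [Fintype.card_fin] at h1
  omega

end Pool.Agent.LAD
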