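import Pool.Agent.Work.MP_1c6e58_ag.LAD.Stmts

/-!
MP_1c6e58_ag, project COV, ladder half: item GGE.
-/

set_option autoImplicit false

open Finset

namespace Pool.Agent.LAD

open Pool.Agent.SH Pool.Agent.COV

/-- GGE: basic facts on `Gge`. -/
theorem I_GGE : St_GGE := by
  intro Q _ A B ρ J
  have h2 : ∀ (m : ℕ) (c c' : ℕ × ℕ), Gge A B ρ J m c → Dlt c c' → Gge A B ρ J (m + 1) c' := by
    rintro m c c' ⟨h1, h2, h3⟩ ⟨h4, h5⟩
    refine ⟨by omega, by omega, fun q hq => ?_⟩
    rcases h3 q hq with h | h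
    · left; omega
    · right; omega
  refine ⟨?_, h2, ?_, ?_⟩
  · rintro m m' c c' hm hc1 hc2 ⟨h1, h2, h3⟩
    refine ⟨by omega, by omega, fun q hq => ?_⟩
    rcases h3 q hq with h | h
    · left; omega
    · right; omega
  · rintro m c q hq ⟨_, _, h3⟩ hA hB
    rcases h3 q hq with h | h <;> omega
  · intro m k s hs h0
    have key : ∀ (i : ℕ) (hi : i < k + 1), Gge A B ρ J (m + i) (s ⟨i, hi⟩) := by
      intro i
      induction i with
      | zero => intro hi; exact h0
      | succ i ih =>
        intro hi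
        have := ih (by omega)
        exact h2 (m + i) _ _ this (hs _ _ (by simp [Fin.lt_def]))
    exact key k (by omega)

end Pool.Agent.LAD
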