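import Pool.Agent.Work.MP_1c6e58_ag.LAD.Stmts

set_option autoImplicit false

open Finset

namespace Pool.Agent.LAD

open Pool.Agent.SH Pool.Agent.COV

namespace XHOMC

theorem aeval_smul {σ : Type} [Fintype σ] (z : σ → ℂ) (a : ℂ) (p : MvPolynomial σ ℂ) (d : ℕ)
    (hp : p.IsHomogeneous d) :
    MvPolynomial.aeval (fun i => a * z i) p = a ^ d * MvPolynomial.aeval z p := by
  rw [MvPolynomial.aeval_def, MvPolynomial.aeval_def, MvPolynomial.eval₂_eq',
    MvPolynomial.eval₂_eq', Finset.mul_sum]
  refine Finset.sum_congr rfl fun α hα => ?_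
  have hd : ∑ i, α i = d := by
    have h := hp (MvPolynomial.mem_support_iff.mp hα)
    rw [Finsupp.weight_apply, Finsupp.sum_fintype] at h
    · simpa using h
    · intro i; simp
  rw [← hd, ← Finset.prod_pow_eq_pow_sum]
  simp only [mul_pow, Finset.prod_mul_distrib]
  ring

end XHOMC

theorem I_HOMC : St_HOMC := by
  intro σ _ Z hZ f hf d
  rw [MvPolynomial.mem_vanishingIdeal_iff] at hf ⊢
  intro z hz
  set c : ℕ → ℂ := fun d => MvPolynomial.aeval z (MvPolynomial.homogeneousComponent d f) with hc
  have key : (∑ e ∈ Finset.range (f.totalDegree + 1), Polynomial.C (c e) * Polynomial.X ^ e) = 0 := by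
    apply Polynomial.funext
    intro a
    have h1 : MvPolynomial.aeval (fun i => a * z i) f = 0 := hf _ (hZ z hz a)
    rw [← MvPolynomial.sum_homogeneousComponent f, map_sum] at h1
    rw [Polynomial.eval_finsetSum, Polynomial.eval_zero, ← h1]
    refine Finset.sum_congr rfl fun e _ => ?_
    rw [XHOMC.aeval_smul z a _ e (MvPolynomial.homogeneousComponent_isHomogeneous e f)]
    rw [Polynomial.eval_mul, Polynomial.eval_C, Polynomial.eval_pow, Polynomial.eval_X, mul_comm]
  by_cases hd : d ≤ f.totalDegree
  · have h2 := congrArg (fun q => Polynomial.coeff q d) key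
    simp only [Polynomial.finsetSum_coeff, Polynomial.coeff_C_mul, Polynomial.coeff_X_pow,
      Polynomial.coeff_zero] at h2
    rw [Finset.sum_eq_single d] at h2
    · simpa [hc] using h2
    · intro b _ hb
      rw [if_neg (Ne.symm hb), mul_zero]
    · intro hn
      exact absurd (Finset.mem_range.mpr (by omega)) hn
  · rw [MvPolynomial.homogeneousComponent_eq_zero d f (by omega), map_zero]

end Pool.Agent.LAD
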