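import Pool.Agent.Work.MP_1c6e58_ag.LAD.Stmts

/-!
MP_1c6e58_ag, project COV, ladder half: item LADM (assembly).
-/

set_option autoImplicit false

open Finset

namespace Pool.Agent.LAD

open Pool.Agent.SH Pool.Agent.COV

theorem I_LADM (hLMQ : St_LMQ) (hGOODL : St_GOODL) (hMAXC : St_MAXC) (hTWO : St_TWO)
    (hCOLB : St_COLB) (hROWA : St_ROWA) (hRHOB : St_RHOB) : COV.St_LADM := by
  intro Q _ A B ρ hL
  refine ⟨(FL A B ρ).card, (GoodN A B ρ (FL A B ρ).card).card, ?_, ?_⟩
  · exact hLMQ Q A B ρ hL (FL A B ρ).card (fun F hF => hMAXC Q A B ρ F hF)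
      ⟨FL A B ρ, hGOODL Q A B ρ, rfl⟩
  · exact
      { rho := fun q => hRHOB Q A B ρ hL q
        colB := fun q hq j hj h => hCOLB Q A B ρ hL q hq j hj h
        rowA := fun q hq j hj h => hROWA Q A B ρ hL q hq j hj h
        two := by
          have h := hTWO Q A B ρ hL
          convert h }

end Pool.Agent.LAD
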