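import Pool.Agent.Work.MP_1c6e58_ag.LAD.Stmts

/-! MP_1c6e58_ag, project COV, ladder half, item LEV: the level function. -/

set_option autoImplicit false

open Finset

namespace Pool.Agent.LAD

open Pool.Agent.SH Pool.Agent.COV

namespace XLEV

theorem chn_bound {F : Finset (ℕ × ℕ)} {m a b : ℕ} (h : Chn F m a b) : m ≤ a := by
  obtain ⟨s, hs, hF⟩ := h
  have hinj : Function.Injective (fun i : Fin m => (⟨(s i).1, (hF i).2.1⟩ : Fin a)) := by
    intro i j hij
    have h1 : (s i).1 = (s j).1 := congrArg Fin.val hij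
    rcases lt_trichotomy i j with h | h | h
    · have := (hs i j h).1
      omega
    · exact h
    · have := (hs j i h).1
      omega
  simpa using Fintype.card_le_of_injective _ hinj

theorem chn_mono {F : Finset (ℕ × ℕ)} {m m' a a' b b' : ℕ} (h : Chn F m a b) (hm : m' ≤ m)
    (ha : a ≤ a') (hb : b ≤ b') : Chn F m' a' b' := by
  obtain ⟨s, hs, hF⟩ := h
  refine ⟨fun i => s (Fin.castLE hm i), fun i j hij => hs _ _ hij, fun i => ?_⟩
  have := hF (Fin.castLE hm i)
  exact ⟨this.1, this.2.1.trans_le ha, this.2.2.trans_le hb⟩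

theorem chn_snoc {F : Finset (ℕ × ℕ)} {m : ℕ} {c c' : ℕ × ℕ}
    (h : Chn F m (c.1 + 1) (c.2 + 1)) (hc : Dlt c c') (hc' : c' ∈ F) :
    Chn F (m + 1) (c'.1 + 1) (c'.2 + 1) := by
  obtain ⟨s, hs, hF⟩ := h
  obtain ⟨hc1, hc2⟩ := hc
  refine ⟨Fin.snoc (α := fun _ => ℕ × ℕ) s c', fun i j hij => ?_, fun i => ?_⟩
  · induction j using Fin.lastCases with
    | last =>
      induction i using Fin.lastCases with
      | last => exact absurd hij (lt_irrefl _)
      | cast i =>
        rw [Fin.snoc_castSucc, Fin.snoc_last]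
        have h1 := (hF i).2.1
        have h2 := (hF i).2.2
        exact ⟨by omega, by omega⟩
    | cast j =>
      induction i using Fin.lastCases with
      | last => exact absurd hij (not_lt.2 (Fin.le_last _))
      | cast i =>
        rw [Fin.snoc_castSucc, Fin.snoc_castSucc]
        exact hs i j hij
  · induction i using Fin.lastCases with
    | last =>
      rw [Fin.snoc_last]
      exact ⟨hc', by omega, by omega⟩
    | cast i =>
      rw [Fin.snoc_castSucc]
      have h1 := (hF i).2.1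
      have h2 := (hF i).2.2
      exact ⟨(hF i).1, by omega, by omega⟩

theorem chn_zero (F : Finset (ℕ × ℕ)) (a b : ℕ) : Chn F 0 a b :=
  ⟨fun i => i.elim0, fun i => i.elim0, fun i => i.elim0⟩

theorem chn_one {F : Finset (ℕ × ℕ)} {c : ℕ × ℕ} (hc : c ∈ F) :
    Chn F 1 (c.1 + 1) (c.2 + 1) :=
  ⟨fun _ => c, fun i j hij => absurd hij (by omega), fun _ =>
    ⟨hc, Nat.lt_succ_self _, Nat.lt_succ_self _⟩⟩

end XLEV

theorem I_LEV : St_LEV := by
  classical
  intro F
  have key : ∀ c : ℕ × ℕ, Chn F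
      (Nat.findGreatest (fun m => Chn F m (c.1 + 1) (c.2 + 1)) (c.1 + 1)) (c.1 + 1) (c.2 + 1) :=
    fun c => Nat.findGreatest_spec (P := fun m => Chn F m (c.1 + 1) (c.2 + 1))
      (Nat.zero_le _) (XLEV.chn_zero F _ _)
  refine ⟨fun c => Nat.findGreatest (fun m => Chn F m (c.1 + 1) (c.2 + 1)) (c.1 + 1),
    fun c hc => ?_, fun c _ c' hc' hlt => ?_, fun c _ a b ha hb m hm => ?_⟩
  · exact Nat.le_findGreatest (by omega) (XLEV.chn_one hc)
  · have h1 := XLEV.chn_snoc (key c) hlt hc'
    exact Nat.lt_of_succ_le (Nat.le_findGreatest (XLEV.chn_bound h1) h1)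
  · exact XLEV.chn_mono (key c) hm ha hb

end Pool.Agent.LAD
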