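import Pool.Agent.Work.MP_1c6e58_ag.LAD.Stmts

/-!
MP_1c6e58_ag, project COV, ladder half: item LOW.
-/

set_option autoImplicit false

open Finset

namespace Pool.Agent.LAD

open Pool.Agent.SH Pool.Agent.COV

namespace XLOW

theorem cone_Zlad {Q : Type} (A B ρ : Q → ℕ) : Cone (Zlad A B ρ) := by
  intro z hz a q
  obtain ⟨f, g, h⟩ := hz q
  refine ⟨fun l x => a * f l x, g, ?_⟩
  intro c h1 h2
  have h3 := h c h1 h2
  show a * z c = _
  rw [h3, Finset.mul_sum]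
  refine Finset.sum_congr rfl fun l _ => ?_
  ring

end XLOW

open XLOW

theorem I_LOW (hCURVE : St_CURVE) (hLOWV : St_LOWV) : St_LOW := by
  classical
  intro Q _ A B ρ hL o hw α hG
  obtain ⟨K0, hK0⟩ := hCURVE Q A B ρ hL (cells α.support) hG
  obtain ⟨K, hK1, hK2⟩ : ∃ K, K0 ≤ K ∧ ∀ c ∈ YY A B, 2 * c.1 * c.2 ≤ K := by
    refine ⟨K0 + ∑ c ∈ YY A B, 2 * c.1 * c.2, Nat.le_add_right _ _, fun c hc => ?_⟩
    have := Finset.single_le_sum (f := fun c : ℕ × ℕ => 2 * c.1 * c.2)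
      (fun i _ => Nat.zero_le _) hc
    exact le_trans this (Nat.le_add_left _ _)
  have hK3 : ∀ c : LCell A B, 2 * c.1.1 * c.1.2 ≤ K := fun c => hK2 c.1 ((mem_YY c.1).2 c.2)
  refine hLOWV (LCell A B) o (fun c => wt c.1) (fun c => K - 2 * c.1.1 * c.1.2) (K : ℤ) hw ?_
    (Zlad A B ρ) (cone_Zlad A B ρ) α.support ?_ α rfl
  · intro c
    have h := hK3 c
    show ((K - 2 * c.1.1 * c.1.2 : ℕ) : ℤ) = (K : ℤ) + -(2 * (c.1.1 : ℤ) * (c.1.2 : ℤ))
    rw [Nat.cast_sub h]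
    push_cast
    ring
  · intro y hy
    obtain ⟨M, hM1, hM2, hM3⟩ := hK0 K hK1
      (fun c => if h : (∃ q, c.1 < A q ∧ c.2 < B q) then y ⟨c, h⟩ else 0) (by
        intro c hc
        obtain ⟨h, h'⟩ := (mem_cells _ _).1 hc
        simp only [dif_pos h]
        exact hy _ h')
    refine ⟨fun c => M c.1, hM1, ?_, ?_⟩
    · intro c hc
      have hc' : c.1 ∈ cells α.support := (mem_cells _ _).2 ⟨c.2, hc⟩
      have h := hK3 c
      obtain ⟨h1, h2⟩ := hM2 c.1 hc'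
      refine ⟨fun i hi => h1 i ?_, ?_⟩
      · have : i < K - 2 * c.1.1 * c.1.2 := hi
        omega
      · have h3 := h2 (K - 2 * c.1.1 * c.1.2) (by omega)
        rw [h3, dif_pos c.2]
    · intro c hc i hi
      have hc' : c.1 ∉ cells α.support := fun hh => by
        obtain ⟨_, h'⟩ := (mem_cells _ _).1 hh
        exact hc h'
      have h := hK3 c
      refine hM3 c.1 ((mem_YY c.1).2 c.2) hc' i ?_
      have : i ≤ K - 2 * c.1.1 * c.1.2 := hi
      omega

end Pool.Agent.LAD
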