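import Pool.Agent.Work.MP_1c6e58_ag.LAD.Stmts

/-!
MP_1c6e58_ag, project COV, ladder half, item LOWV: a criterion for an exponent not to be a lowest
exponent.
-/

set_option autoImplicit false

open Finset

namespace Pool.Agent.LAD

open Pool.Agent.SH Pool.Agent.COV

namespace XLOWV

variable {σ : Type} [Fintype σ]

theorem vsum_eq (w : σ → ℤ) (v : σ → ℕ) (K : ℤ) (hv : ∀ c, (v c : ℤ) = K + w c)
    (β : σ →₀ ℕ) : ((∑ c, β c * v c : ℕ) : ℤ) = K * (β.degree : ℤ) + ∑ c, (β c : ℤ) * w c := by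
  rw [Finsupp.degree_eq_sum]
  push_cast
  rw [Finset.mul_sum, ← Finset.sum_add_distrib]
  refine Finset.sum_congr rfl fun c _ => ?_
  rw [hv c]
  ring

theorem le_of_min (o : LOrd σ) (w : σ → ℤ) (v : σ → ℕ) (K : ℤ) (hW : WOrd o w)
    (hv : ∀ c, (v c : ℤ) = K + w c) (α β : σ →₀ ℕ) (hd : β.degree = α.degree)
    (h : o.f α ≤ o.f β) : ∑ c, α c * v c ≤ ∑ c, β c * v c := by
  by_contra hlt
  push Not at hlt
  have h1 := vsum_eq w v K hv α
  have h2 := vsum_eq w v K hv β
  have h3 : ((∑ c, β c * v c : ℕ) : ℤ) < ((∑ c, α c * v c : ℕ) : ℤ) := by exact_mod_cast hlt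
  rw [h1, h2, hd] at h3
  have h4 : ∑ c, (β c : ℤ) * w c < ∑ c, (α c : ℤ) * w c := by linarith
  exact absurd h (not_le.2 (hW β α hd h4))

theorem sum_eq (hCOEFM : St_COEFM) (g : MvPolynomial σ ℂ) (M : σ → Polynomial ℂ) (v : σ → ℕ)
    (y : σ → ℂ) (hM : ∀ c, (∀ i, i < v c → (M c).coeff i = 0) ∧ (M c).coeff (v c) = y c)
    (hz : ∀ T : ℂ, MvPolynomial.eval (fun c => (M c).eval T) g = 0) (n : ℕ)
    (hn : ∀ β ∈ g.support, n ≤ ∑ c, β c * v c) :
    ∑ β ∈ g.support.filter (fun β => ∑ c, β c * v c = n), g.coeff β * ∏ c, y c ^ β c = 0 := by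
  have hG : MvPolynomial.aeval M g = (0 : Polynomial ℂ) := by
    refine Polynomial.funext fun T => ?_
    rw [Polynomial.eval_zero, ← hz T, MvPolynomial.aeval_def, MvPolynomial.eval₂_eq',
      Polynomial.eval_finsetSum, MvPolynomial.eval_eq']
    refine Finset.sum_congr rfl fun β _ => ?_
    rw [Polynomial.eval_mul, Polynomial.eval_prod, Polynomial.algebraMap_eq, Polynomial.eval_C]
    simp only [Polynomial.eval_pow]
  have h1 : (MvPolynomial.aeval M g : Polynomial ℂ).coeff n = 0 := by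
    rw [hG, Polynomial.coeff_zero]
  rw [MvPolynomial.aeval_def, MvPolynomial.eval₂_eq', Polynomial.finsetSum_coeff] at h1
  rw [← h1, Finset.sum_filter]
  refine Finset.sum_congr rfl fun β hβ => ?_
  rw [Polynomial.algebraMap_eq, Polynomial.coeff_C_mul]
  have hc := hCOEFM σ M v y hM β
  split_ifs with he
  · rw [← he, hc.2]
  · have hlt : n < ∑ c, β c * v c := lt_of_le_of_ne (hn β hβ) (Ne.symm he)
    rw [hc.1 n hlt, mul_zero]

end XLOWV

open XLOWV

theorem I_LOWV (hHOMC : St_HOMC) (hCOEFM : St_COEFM) (hVANF : St_VANF) : St_LOWV := by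
  classical
  intro σ _ o w v K hW hv Z hZ F hM α hα hL
  obtain ⟨f, hfI, hαf, hmin⟩ := hL
  set g := MvPolynomial.homogeneousComponent α.degree f with hg
  have hgI : g ∈ MvPolynomial.vanishingIdeal ℂ Z := hHOMC σ Z hZ f hfI α.degree
  have hgc : ∀ β : σ →₀ ℕ, g.coeff β = if β.degree = α.degree then f.coeff β else 0 := by
    intro β
    rw [hg, MvPolynomial.coeff_homogeneousComponent]
  have hgα : g.coeff α ≠ 0 := by
    rw [hgc, if_pos rfl]
    exact MvPolynomial.mem_support_iff.1 hαf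
  have hle : ∀ β ∈ g.support, ∑ c, α c * v c ≤ ∑ c, β c * v c := by
    intro β hβ
    have h1 := MvPolynomial.mem_support_iff.1 hβ
    rw [hgc] at h1
    by_cases hd : β.degree = α.degree
    · rw [if_pos hd] at h1
      exact le_of_min o w v K hW hv α β hd (hmin β (MvPolynomial.mem_support_iff.2 h1))
    · rw [if_neg hd] at h1
      exact absurd rfl h1
  have hp : MvPolynomial.coeff α (∑ β ∈ g.support.filter
      (fun β => ∑ c, β c * v c = ∑ c, α c * v c), MvPolynomial.monomial β (g.coeff β)) = 0 := by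
    refine hVANF σ F _ ?_ α hα
    intro y hy1 hy0
    obtain ⟨M, hMZ, hMF, hM0⟩ := hM y hy1
    have hMc : ∀ c, (∀ i, i < v c → (M c).coeff i = 0) ∧ (M c).coeff (v c) = y c := by
      intro c
      by_cases hc : c ∈ F
      · exact hMF c hc
      · refine ⟨fun i hi => hM0 c hc i hi.le, ?_⟩
        rw [hM0 c hc (v c) le_rfl, hy0 c hc]
    have hz : ∀ T : ℂ, MvPolynomial.eval (fun c => (M c).eval T) g = 0 := by
      intro T
      have := (MvPolynomial.mem_vanishingIdeal_iff.1 hgI) _ (hMZ T)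
      simpa [MvPolynomial.aeval_eq_eval] using this
    have h := sum_eq hCOEFM g M v y hMc hz _ hle
    rw [← h, map_sum]
    refine Finset.sum_congr rfl fun β _ => ?_
    rw [MvPolynomial.eval_monomial, Finsupp.prod_fintype _ _ (fun c => pow_zero _)]
  rw [MvPolynomial.coeff_sum] at hp
  simp only [MvPolynomial.coeff_monomial] at hp
  rw [Finset.sum_ite_eq', if_pos] at hp
  · exact hgα hp
  · rw [Finset.mem_filter]
    exact ⟨MvPolynomial.mem_support_iff.2 hgα, rfl⟩

end Pool.Agent.LAD
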