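import Pool.Agent.Work.MP_1c6e58_ag.LAD.Stmts

/-!
MP_1c6e58_ag, ladder half, item MASK: the masks are products on the rectangles.
-/

set_option autoImplicit false

open Finset

namespace Pool.Agent.LAD

open Pool.Agent.SH Pool.Agent.COV

/-- MASK. -/
theorem I_MASK : St_MASK := by
  classical
  intro Q _ A B ρ hL q l hl
  refine ⟨fun a => if ∃ q', ρ q' < l ∧ B q ≤ B q' ∧ a < A q' then 0 else 1,
    fun b => if ∃ q', ρ q' < l ∧ A q ≤ A q' ∧ b < B q' then 0 else 1, ?_⟩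
  intro c hcA hcB
  unfold mask
  by_cases h : ∃ q', c.1 < A q' ∧ c.2 < B q' ∧ ρ q' < l
  · rw [if_pos h]
    obtain ⟨q', h1, h2, h3⟩ := h
    have hne : q ≠ q' := by
      rintro rfl
      omega
    rcases hL.ord q q' hne with h4 | h4
    · have h5 : ∃ q', ρ q' < l ∧ B q ≤ B q' ∧ c.1 < A q' := ⟨q', h3, h4.2.1, h1⟩
      simp only [if_pos h5, zero_mul]
    · have h5 : ∃ q', ρ q' < l ∧ A q ≤ A q' ∧ c.2 < B q' := ⟨q', h3, h4.1, h2⟩
      simp only [if_pos h5, mul_zero]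
  · rw [if_neg h]
    have h5 : ¬ ∃ q', ρ q' < l ∧ B q ≤ B q' ∧ c.1 < A q' := by
      rintro ⟨q', h1, h2, h3⟩
      exact h ⟨q', h3, lt_of_lt_of_le hcB h2, h1⟩
    have h6 : ¬ ∃ q', ρ q' < l ∧ A q ≤ A q' ∧ c.2 < B q' := by
      rintro ⟨q', h1, h2, h3⟩
      exact h ⟨q', lt_of_lt_of_le hcA h2, h3, h1⟩
    simp only [if_neg h5, if_neg h6, mul_one]

end Pool.Agent.LAD
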