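import Pool.Agent.Work.MP_1c6e58_ag.LAD.Stmts

/-!
MP_1c6e58_ag, project COV, ladder half: the set `FL` is a largest good set.
-/

set_option autoImplicit false

open Finset

namespace Pool.Agent.LAD

open Pool.Agent.SH Pool.Agent.COV

namespace XMAXC

/-- Cells on one diagonal form a chain. -/
theorem chn_of_card (F G : Finset (ℕ × ℕ)) (δ : ℤ) (m a b : ℕ) (hG : G ⊆ F)
    (hδ : ∀ c ∈ G, (c.1 : ℤ) - (c.2 : ℤ) = δ) (hr : ∀ c ∈ G, c.1 < a ∧ c.2 < b)
    (hm : m ≤ G.card) : Chn F m a b := by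
  classical
  have hinj : Set.InjOn (Prod.fst : ℕ × ℕ → ℕ) (G : Set (ℕ × ℕ)) := by
    intro c hc c' hc' h
    have h1 := hδ c hc
    have h2 := hδ c' hc'
    ext
    · exact h
    · omega
  have hcard : (G.image Prod.fst).card = G.card := card_image_of_injOn hinj
  have hm' : m ≤ (G.image Prod.fst).card := by omega
  let e := (G.image Prod.fst).orderEmbOfCardLe hm'
  have he : ∀ i, ∃ c ∈ G, c.1 = e i := by
    intro i
    have h := Finset.orderEmbOfCardLe_mem (G.image Prod.fst) hm' i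
    rw [mem_image] at h
    exact h
  choose s hs1 hs2 using he
  refine ⟨s, ?_, fun i => ⟨hG (hs1 i), hr _ (hs1 i)⟩⟩
  intro i j hij
  have h1 : e i < e j := e.strictMono hij
  have h2 := hδ _ (hs1 i)
  have h3 := hδ _ (hs1 j)
  have h4 := hs2 i
  have h5 := hs2 j
  constructor
  · omega
  · omega

variable {Q : Type} [Fintype Q]

/-- The comparison on one diagonal. -/
theorem diag (A B ρ : Q → ℕ) (F : Finset (ℕ × ℕ)) (hF : Good A B ρ F) (δ : ℤ) :
    (F.filter (fun c => (c.1 : ℤ) - (c.2 : ℤ) = δ)).card ≤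
      ((FL A B ρ).filter (fun c => (c.1 : ℤ) - (c.2 : ℤ) = δ)).card := by
  classical
  by_cases hD : ∀ c ∈ YY A B, (c.1 : ℤ) - (c.2 : ℤ) = δ → c ∈ FL A B ρ
  · apply card_le_card
    intro c hc
    rw [mem_filter] at hc ⊢
    exact ⟨hD c (hF.sub hc.1) hc.2, hc.2⟩
  · push Not at hD
    obtain ⟨c₀, h1, h2, h3⟩ := hD
    have hne : (((YY A B).filter (fun c => (c.1 : ℤ) - (c.2 : ℤ) = δ)) \ FL A B ρ).Nonempty :=
      ⟨c₀, mem_sdiff.2 ⟨mem_filter.2 ⟨h1, h2⟩, h3⟩⟩
    obtain ⟨c, hc, hmax⟩ := exists_max_image _ (fun c : ℕ × ℕ => c.1) hne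
    rw [mem_sdiff, mem_filter] at hc
    obtain ⟨⟨hcY, hcδ⟩, hcF⟩ := hc
    have hup : ∀ c' ∈ YY A B, (c'.1 : ℤ) - (c'.2 : ℤ) = δ → c.1 < c'.1 → c' ∈ FL A B ρ := by
      intro c' h4 h5 h6
      by_contra h7
      have := hmax c' (mem_sdiff.2 ⟨mem_filter.2 ⟨h4, h5⟩, h7⟩)
      omega
    have hq : ∃ q, ρ q + c.1 < A q ∧ ρ q + c.2 < B q := by
      by_contra hcon
      push Not at hcon
      apply hcF
      rw [mem_FL]
      refine ⟨hcY, by omega, by omega, ?_⟩
      intro q _
      by_cases h4 : ρ q + c.1 < A q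
      · right
        have := hcon q h4
        omega
      · left
        omega
    obtain ⟨q, hq1, hq2⟩ := hq
    -- the part inside the rectangle
    have hin : ((F.filter (fun c => (c.1 : ℤ) - (c.2 : ℤ) = δ)).filter
        (fun c => c.1 < A q ∧ c.2 < B q)).card ≤ ρ q := by
      by_contra hcon
      refine hF.nch q (chn_of_card F _ δ _ _ _ ?_ ?_ ?_ (Nat.succ_le_of_lt (not_le.1 hcon)))
      · intro x hx
        rw [mem_filter, mem_filter] at hx
        exact hx.1.1
      · intro x hx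
        rw [mem_filter, mem_filter] at hx
        exact hx.1.2
      · intro x hx
        rw [mem_filter, mem_filter] at hx
        exact hx.2
    -- the part of FL
    let T : Finset (ℕ × ℕ) := (range (ρ q)).image (fun i => (c.1 + (i + 1), c.2 + (i + 1)))
    have hT : T.card = ρ q := by
      rw [card_image_of_injective, card_range]
      intro i j hij
      simp only [Prod.mk.injEq] at hij
      omega
    have hTr : ∀ x ∈ T, (x.1 < A q ∧ x.2 < B q) ∧ (x.1 : ℤ) - (x.2 : ℤ) = δ ∧ c.1 < x.1 := by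
      intro x hx
      rw [mem_image] at hx
      obtain ⟨i, hi, rfl⟩ := hx
      rw [mem_range] at hi
      refine ⟨⟨by simp only; omega, by simp only; omega⟩, ?_, by simp only; omega⟩
      push_cast
      omega
    let O : Finset (ℕ × ℕ) := (F.filter (fun c => (c.1 : ℤ) - (c.2 : ℤ) = δ)).filter
        (fun c => ¬ (c.1 < A q ∧ c.2 < B q))
    have hdis : Disjoint T O := by
      rw [disjoint_left]
      intro x hx hx'
      rw [mem_filter] at hx'
      exact hx'.2 (hTr x hx).1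
    have hsub : T ∪ O ⊆ (FL A B ρ).filter (fun c => (c.1 : ℤ) - (c.2 : ℤ) = δ) := by
      intro x hx
      rw [mem_union] at hx
      rw [mem_filter]
      rcases hx with hx | hx
      · obtain ⟨h4, h5, h6⟩ := hTr x hx
        exact ⟨hup x ((mem_YY x).2 ⟨q, h4⟩) h5 h6, h5⟩
      · rw [mem_filter, mem_filter] at hx
        obtain ⟨⟨h4, h5⟩, h6⟩ := hx
        refine ⟨hup x (hF.sub h4) h5 ?_, h5⟩
        by_contra h7
        apply h6
        constructor
        · omega
        · omega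
    calc (F.filter (fun c => (c.1 : ℤ) - (c.2 : ℤ) = δ)).card
        = ((F.filter (fun c => (c.1 : ℤ) - (c.2 : ℤ) = δ)).filter
          (fun c => c.1 < A q ∧ c.2 < B q)).card + O.card :=
          (card_filter_add_card_filter_not _).symm
      _ ≤ T.card + O.card := by omega
      _ = (T ∪ O).card := (card_union_of_disjoint hdis).symm
      _ ≤ _ := card_le_card hsub

end XMAXC

open XMAXC in
theorem I_MAXC : St_MAXC := by
  classical
  intro Q _ A B ρ F hF
  have h1 : F.card = ∑ δ ∈ (YY A B).image (fun c => (c.1 : ℤ) - (c.2 : ℤ)),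
      (F.filter (fun c => (c.1 : ℤ) - (c.2 : ℤ) = δ)).card :=
    card_eq_sum_card_fiberwise (fun c hc => mem_coe.2 (mem_image_of_mem _ (hF.sub (mem_coe.1 hc))))
  have h2 : (FL A B ρ).card = ∑ δ ∈ (YY A B).image (fun c => (c.1 : ℤ) - (c.2 : ℤ)),
      ((FL A B ρ).filter (fun c => (c.1 : ℤ) - (c.2 : ℤ) = δ)).card :=
    card_eq_sum_card_fiberwise (fun c hc =>
      mem_coe.2 (mem_image_of_mem _ ((mem_FL c).1 (mem_coe.1 hc)).1))
  rw [h1, h2]
  exact sum_le_sum (fun δ _ => diag A B ρ F hF δ)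

end Pool.Agent.LAD
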