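import Pool.Agent.Work.MP_1c6e58_ag.LAD.Stmts

/-!
MP_1c6e58_ag, project COV, ladder half, item MINT: the lowest term of a minor.
-/

set_option autoImplicit false

open Finset

namespace Pool.Agent.LAD

open Pool.Agent.SH Pool.Agent.COV

namespace XMINT

variable {σ : Type}

/-- The exponent of a permutation. -/
noncomputable def E {m : ℕ} (x : Fin m → Fin m → σ) (π : Equiv.Perm (Fin m)) : σ →₀ ℕ :=
  ∑ i, Finsupp.single (x i (π i)) 1

theorem E_degree {m : ℕ} (x : Fin m → Fin m → σ) (π : Equiv.Perm (Fin m)) :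
    (E x π).degree = m := by
  unfold E
  rw [map_sum]
  simp

theorem E_weight [Fintype σ] {m : ℕ} (w : σ → ℤ) (x : Fin m → Fin m → σ)
    (π : Equiv.Perm (Fin m)) :
    ∑ c, (E x π c : ℤ) * w c = ∑ i, w (x i (π i)) := by
  classical
  have h1 : ∀ c, (E x π c : ℤ) * w c = ∑ i, if x i (π i) = c then w c else 0 := by
    intro c
    unfold E
    rw [Finsupp.finsetSum_apply]
    push_cast
    rw [sum_mul]
    refine sum_congr rfl fun i _ => ?_
    rw [Finsupp.single_apply]
    split_ifs <;> simp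
  rw [sum_congr rfl (fun c _ => h1 c), sum_comm]
  refine sum_congr rfl fun i _ => ?_
  rw [sum_ite_eq]
  simp

theorem mnr_coeff {m : ℕ} (x : Fin m → Fin m → σ) (β : σ →₀ ℕ) [DecidableEq (σ →₀ ℕ)] :
    (mnr m x).coeff β =
      ∑ π : Equiv.Perm (Fin m), if E x π = β then ((Equiv.Perm.sign π : ℤ) : ℂ) else 0 := by
  classical
  unfold mnr
  rw [← Matrix.det_transpose, Matrix.det_apply', MvPolynomial.coeff_sum]
  refine sum_congr rfl fun π _ => ?_
  have h1 : (∏ i, (Matrix.of fun i j => (MvPolynomial.X (x i j) : MvPolynomial σ ℂ)).transpose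
      (π i) i) = MvPolynomial.monomial (E x π) 1 := by
    unfold E
    rw [MvPolynomial.monomial_sum_one]
    refine prod_congr rfl fun i _ => ?_
    rw [Matrix.transpose_apply, Matrix.of_apply]
    rfl
  have h2 : (((Equiv.Perm.sign π : ℤ)) : MvPolynomial σ ℂ) =
      MvPolynomial.C ((Equiv.Perm.sign π : ℤ) : ℂ) := by
    simp
  rw [h1, h2, MvPolynomial.coeff_C_mul, MvPolynomial.coeff_monomial]
  split_ifs <;> simp

theorem main [Fintype σ] (w : σ → ℤ) (o : LOrd σ) (hw : WOrd o w)
    (m : ℕ) (x : Fin m → Fin m → σ)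
    (hx : ∀ π : Equiv.Perm (Fin m), π ≠ 1 → ∑ i, w (x i i) < ∑ i, w (x i (π i))) :
    (∑ i, Finsupp.single (x i i) 1) ∈ (mnr m x).support ∧
      ∀ β ∈ (mnr m x).support, o.f (∑ i, Finsupp.single (x i i) 1) ≤ o.f β := by
  classical
  have hE1 : (∑ i, Finsupp.single (x i i) 1) = E x 1 := by
    unfold E
    rfl
  have hlt : ∀ π : Equiv.Perm (Fin m), π ≠ 1 → o.f (E x 1) < o.f (E x π) := by
    intro π hπ
    refine hw _ _ ?_ ?_
    · rw [E_degree, E_degree]
    · rw [E_weight, E_weight]
      exact hx π hπ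
  rw [hE1]
  constructor
  · rw [MvPolynomial.mem_support_iff, mnr_coeff, sum_eq_single 1]
    · rw [if_pos rfl]
      simp
    · intro π _ hπ
      rw [if_neg]
      intro h
      have := hlt π hπ
      rw [h] at this
      exact lt_irrefl _ this
    · intro h
      exact absurd (mem_univ _) h
  · intro β hβ
    rw [MvPolynomial.mem_support_iff, mnr_coeff] at hβ
    obtain ⟨π, -, hπ⟩ := exists_ne_zero_of_sum_ne_zero hβ
    have h1 : E x π = β := by
      by_contra hc
      rw [if_neg hc] at hπ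
      exact hπ rfl
    rw [← h1]
    by_cases h2 : π = 1
    · rw [h2]
    · exact (hlt π h2).le

end XMINT

theorem I_MINT : St_MINT :=
  fun _ _ w o hw m x hx => XMINT.main w o hw m x hx

end Pool.Agent.LAD
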