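import Pool.Agent.Work.MP_1c6e58_ag.LAD.Stmts

/-!
MP_1c6e58_ag, project COV, ladder half: item MOD (other largest good sets).
-/

set_option autoImplicit false

open Finset

namespace Pool.Agent.LAD

open Pool.Agent.SH Pool.Agent.COV

theorem I_MOD (hGGE : St_GGE) : St_MOD := by
  intro Q _ A B ρ R hRF hR hc
  obtain ⟨-, G2, G3, G4⟩ := hGGE Q A B ρ Set.univ
  have hG1 : ∀ r ∈ R, Gge A B ρ Set.univ 1 r := fun r hr => ((mem_FL r).1 (hRF hr)).2
  have hdlt : ∀ r ∈ R, Dlt (r.1 - 1, r.2 - 1) r := by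
    intro r hr
    obtain ⟨h1, h2, -, -⟩ := hR r hr
    exact ⟨by simp only; omega, by simp only; omega⟩
  have hnFL : ∀ r ∈ R, (r.1 - 1, r.2 - 1) ∉ FL A B ρ := by
    intro r hr h
    exact (hR r hr).2.2.1 (G2 1 _ _ ((mem_FL _).1 h).2 (hdlt r hr))
  have hmem : ∀ c, c ∈ mvd A B ρ R ↔ (c ∈ FL A B ρ ∧ c ∉ R) ∨ ∃ r ∈ R, (r.1 - 1, r.2 - 1) = c := by
    intro c
    simp only [mvd, mem_union, mem_sdiff, mem_image]
  have hdisj : Disjoint (FL A B ρ \ R) (R.image (fun r => (r.1 - 1, r.2 - 1))) := by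
    rw [Finset.disjoint_left]
    intro c h1 h2
    obtain ⟨r, hr, rfl⟩ := mem_image.1 h2
    exact hnFL r hr (mem_sdiff.1 h1).1
  have hcard : (mvd A B ρ R).card = (FL A B ρ).card := by
    unfold mvd
    rw [card_union_of_disjoint hdisj, card_image_of_injOn, card_sdiff_of_subset hRF]
    · exact Nat.sub_add_cancel (card_le_card hRF)
    · intro r hr r' hr' h
      have h1 := hR r hr
      have h2 := hR r' hr'
      simp only [Prod.mk.injEq] at h
      exact Prod.ext (by omega) (by omega)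
  refine ⟨(mem_GoodN _).2 ⟨⟨?_, ?_⟩, hcard⟩, ?_⟩
  · intro c h
    rcases (hmem c).1 h with ⟨h, -⟩ | ⟨r, hr, rfl⟩
    · exact ((mem_FL c).1 h).1
    · obtain ⟨q, h1, h2⟩ := (mem_YY r).1 ((mem_FL r).1 (hRF hr)).1
      exact (mem_YY _).2 ⟨q, by simp only; omega, by simp only; omega⟩
  · intro q
    have key : ∀ m, m = ρ q → ¬ Chn (mvd A B ρ R) (m + 1) (A q) (B q) := by
      rintro m hm ⟨s, hs, hs'⟩
      obtain ⟨hm0, ha0, hb0⟩ := hs' 0
      obtain ⟨-, hal, hbl⟩ := hs' (Fin.last m)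
      rcases (hmem _).1 hm0 with ⟨h, -⟩ | ⟨r, hr, hrs⟩
      · have h4 := G4 1 m s hs ((mem_FL _).1 h).2
        have h3 := G3 _ _ q (Set.mem_univ q) h4 hal hbl
        omega
      · rw [← hrs] at ha0 hb0
        have hρ : m ≠ 0 := fun h0 => (hR r hr).2.2.2 q (by omega) ⟨ha0, hb0⟩
        obtain ⟨k, rfl⟩ : ∃ k, m = k + 1 := ⟨m - 1, by omega⟩
        have h01 : Dlt (s 0) (s 1) := hs 0 1 (by simp)
        rw [← hrs] at h01
        have hr1 := hR r hr
        obtain ⟨e1, e2⟩ := h01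
        simp only at e1 e2
        obtain ⟨hm1, -, -⟩ := hs' 1
        rcases (hmem _).1 hm1 with ⟨h, hn⟩ | ⟨r', hr', hrs'⟩
        · have hg := hc r hr (s 1) h hn (by omega) (by omega)
          have h4 := G4 2 k (fun i => s i.succ)
            (fun i j hij => hs _ _ (Fin.succ_lt_succ_iff.2 hij)) hg
          have h3 := G3 _ _ q (Set.mem_univ q) h4 hal hbl
          omega
        · have hr1' := hR r' hr'
          rw [← hrs'] at e1 e2
          simp only at e1 e2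
          exact hr1'.2.2.1 (G2 1 r r' (hG1 r hr) ⟨by omega, by omega⟩)
    exact key _ rfl
  · ext c
    rw [mem_sdiff, hmem]
    constructor
    · rintro ⟨h1, h2⟩
      by_contra h3
      exact h2 (Or.inl ⟨h1, h3⟩)
    · intro h
      refine ⟨hRF h, ?_⟩
      rintro (⟨-, h2⟩ | ⟨r, hr, hrc⟩)
      · exact h2 h
      · exact hnFL r hr (hrc ▸ hRF h)

end Pool.Agent.LAD
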