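import Pool.Agent.Work.MP_1c6e58_ag.LAD.Stmts

/-!
MP_1c6e58_ag, project COV, ladder half, item MQG: the multiplicity if the lowest exponents are
determined by a family of supports.
-/

set_option autoImplicit false

open Finset

namespace Pool.Agent.LAD

open Pool.Agent.SH Pool.Agent.COV

namespace XMQG

lemma series (hHG : SH.St_HG) {σ : Type} [Fintype σ] (o : LOrd σ) (Z : Set (σ → ℂ)) :
    HS Z * (1 - PowerSeries.X) =
      PowerSeries.mk (fun i => (gL (Lset o (MvPolynomial.vanishingIdeal ℂ Z)) i : ℤ)) := by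
  have hf : ∀ t, Hf Z t =
      ∑ i ∈ range (t + 1), gL (Lset o (MvPolynomial.vanishingIdeal ℂ Z)) i := fun t =>
    hHG σ o (MvPolynomial.vanishingIdeal ℂ Z) t
  ext t
  rw [mul_sub, mul_one, map_sub, PowerSeries.coeff_mk]
  cases t with
  | zero =>
    rw [PowerSeries.coeff_zero_mul_X, HS, PowerSeries.coeff_mk, hf]
    simp
  | succ t =>
    rw [PowerSeries.coeff_succ_mul_X, HS, PowerSeries.coeff_mk, PowerSeries.coeff_mk, hf, hf,
      sum_range_succ _ (t + 1)]
    push_cast
    ring

open Classical in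
lemma gL_eq {σ : Type} [Fintype σ] (L : Set (σ →₀ ℕ)) (P : Finset σ → Prop)
    (h : ∀ α : σ →₀ ℕ, α ∈ L ↔ ¬ P α.support) (i : ℕ) :
    gL L i = ∑ F ∈ (Finset.univ : Finset (Finset σ)).filter (fun F => P F), gF F i := by
  unfold gL gF
  rw [Finset.card_eq_sum_card_fiberwise (f := fun α : σ →₀ ℕ => α.support)
    (t := (Finset.univ : Finset (Finset σ)).filter (fun F => P F))]
  · refine sum_congr rfl fun F hF => ?_
    congr 1
    have hP : P F := (mem_filter.1 hF).2
    ext α
    simp only [mem_filter, h, not_not]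
    constructor
    · rintro ⟨⟨h1, _⟩, h3⟩
      exact ⟨h1, h3⟩
    · rintro ⟨h1, h3⟩
      exact ⟨⟨h1, by rw [h3]; exact hP⟩, h3⟩
  · intro α hα
    have h1 := (mem_filter.1 (Finset.mem_coe.1 hα)).2
    rw [h, not_not] at h1
    exact Finset.mem_coe.2 (mem_filter.2 ⟨mem_univ _, h1⟩)

end XMQG

open Classical in
theorem I_MQG (hHG : SH.St_HG) (hCNTS : St_CNTS) : St_MQG := by
  intro σ _ Z o P d hL hle hex
  refine ⟨?_, ?_⟩
  · obtain ⟨F, hF, hd⟩ := hex
    exact Finset.card_pos.2 ⟨F, mem_filter.2 ⟨mem_univ _, hF, hd⟩⟩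
  refine ⟨∑ F ∈ (Finset.univ : Finset (Finset σ)).filter (fun F => P F),
    (Polynomial.X ^ F.card * (1 - Polynomial.X) ^ (d - F.card) : Polynomial ℤ), ?_, ?_⟩
  · rw [Polynomial.eval_finsetSum]
    have h1 : ∀ F ∈ (Finset.univ : Finset (Finset σ)).filter (fun F => P F),
        Polynomial.eval 1 (Polynomial.X ^ F.card * (1 - Polynomial.X) ^ (d - F.card) :
          Polynomial ℤ) = if F.card = d then 1 else 0 := by
      intro F hF
      have h2 := hle F (mem_filter.1 hF).2
      by_cases h3 : F.card = d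
      · rw [if_pos h3, h3]
        simp
      · rw [if_neg h3]
        have h4 : d - F.card ≠ 0 := by omega
        simp [h4]
    rw [sum_congr rfl h1, Finset.sum_boole, Finset.filter_filter]
  · have h0 := XMQG.series hHG o Z
    have h1 : PowerSeries.mk (fun i => (gL (Lset o (MvPolynomial.vanishingIdeal ℂ Z)) i : ℤ)) =
        ∑ F ∈ (Finset.univ : Finset (Finset σ)).filter (fun F => P F),
          PowerSeries.mk (fun i => (gF F i : ℤ)) := by
      ext i
      rw [PowerSeries.coeff_mk, map_sum, XMQG.gL_eq _ P hL i]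
      push_cast
      refine sum_congr rfl fun F _ => ?_
      rw [PowerSeries.coeff_mk]
    rw [pow_succ', ← mul_assoc, h0, h1, Finset.sum_mul]
    have h2 : ((∑ F ∈ (Finset.univ : Finset (Finset σ)).filter (fun F => P F),
        (Polynomial.X ^ F.card * (1 - Polynomial.X) ^ (d - F.card) : Polynomial ℤ) :
          Polynomial ℤ) : PowerSeries ℤ) =
        ∑ F ∈ (Finset.univ : Finset (Finset σ)).filter (fun F => P F),
          ((PowerSeries.X : PowerSeries ℤ) ^ F.card *
            (1 - PowerSeries.X) ^ (d - F.card)) := by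
      have e := map_sum (Polynomial.coeToPowerSeries.ringHom (R := ℤ))
        (fun F : Finset σ => (Polynomial.X ^ F.card * (1 - Polynomial.X) ^ (d - F.card) :
          Polynomial ℤ)) ((Finset.univ : Finset (Finset σ)).filter (fun F => P F))
      rw [Polynomial.coeToPowerSeries.ringHom_apply] at e
      rw [e]
      refine sum_congr rfl fun F _ => ?_
      rw [map_mul, map_pow, map_pow, map_sub, map_one,
        Polynomial.coeToPowerSeries.ringHom_apply, Polynomial.coe_X]
    rw [h2]
    refine sum_congr rfl fun F hF => ?_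
    have h3 := hle F (mem_filter.1 hF).2
    have h4 := hCNTS σ F
    rw [← h4, mul_assoc, ← pow_add, Nat.add_sub_cancel' h3]

end Pool.Agent.LAD
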