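import Pool.Agent.Work.MP_1c6e58_ag.LAD.Stmts

/-!
MP_1c6e58_ag, project COV, ladder half: item R1, products for a set without 2-chains.
-/

set_option autoImplicit false

open Finset

namespace Pool.Agent.LAD

open Pool.Agent.SH Pool.Agent.COV

namespace XR1

/-- The function `u a + 2 S a` grows by at least one in each step. -/
theorem mono {u : ℕ → ℤ} {S : ℕ}
    (h : ∀ a : ℕ, u a + 2 * (S : ℤ) * (a : ℤ) + 1 ≤ u (a + 1) + 2 * (S : ℤ) * ((a : ℤ) + 1))
    (m k : ℕ) :
    u m + 2 * (S : ℤ) * (m : ℤ) + (k : ℤ) ≤ u (m + k) + 2 * (S : ℤ) * ((m : ℤ) + (k : ℤ)) := by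
  induction k with
  | zero => simp
  | succ k ih =>
    have h1 := h (m + k)
    rw [← Nat.add_assoc]
    push_cast at h1 ⊢
    linarith

/-- The largest element of a row. -/
theorem row_max (G : Finset (ℕ × ℕ)) (S a0 : ℕ) (h : (a0, S) ∈ G) :
    ∃ m, (m, S) ∈ G ∧ ∀ a, (a, S) ∈ G → a ≤ m := by
  classical
  have mem : ∀ a, a ∈ (G.filter (fun c => c.2 = S)).image Prod.fst ↔ (a, S) ∈ G := by
    intro a
    rw [mem_image]
    constructor
    · rintro ⟨c, hc, rfl⟩
      obtain ⟨hc1, hc2⟩ := mem_filter.1 hc
      rw [← hc2]
      exact hc1
    · intro ha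
      exact ⟨(a, S), mem_filter.2 ⟨ha, rfl⟩, rfl⟩
  have hne : ((G.filter (fun c => c.2 = S)).image Prod.fst).Nonempty := ⟨a0, (mem a0).2 h⟩
  exact ⟨_, (mem _).1 (Finset.max'_mem _ hne), fun a ha => Finset.le_max' _ a ((mem a).2 ha)⟩

end XR1

theorem I_R1 : St_R1 := by
  intro S
  induction S with
  | zero =>
    intro G hG _
    have hG0 : G = ∅ :=
      Finset.eq_empty_of_forall_notMem fun c hc => absurd (hG c hc) (Nat.not_lt_zero _)
    subst hG0
    refine ⟨fun a => (a : ℤ), fun _ => 0, by simp, by simp, ?_, ?_⟩
    · intro a
      simp
    · intro y _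
      exact ⟨fun _ => 1, fun _ => 1, by simp, by simp, by simp⟩
  | succ S ih =>
    intro G hG hD
    classical
    obtain ⟨u, t, h1, h2, h3, h4⟩ := ih (G.filter (fun c => c.2 < S))
      (fun c hc => (mem_filter.1 hc).2)
      (fun c hc c' hc' => hD c (mem_filter.1 hc).1 c' (mem_filter.1 hc').1)
    have hm := XR1.mono h3
    by_cases hS : ∃ a, (a, S) ∈ G
    · obtain ⟨a0, ha0⟩ := hS
      obtain ⟨m, hmG, hmax⟩ := XR1.row_max G S a0 ha0
      have hge : ∀ a b : ℕ, (a, b) ∈ G → b < S → m ≤ a := by
        intro a b hc hcS
        by_contra hlt
        exact hD (a, b) hc (m, S) hmG ⟨by omega, hcS⟩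
      have hmb : ∀ b : ℕ, b < S → -(2 * (m : ℤ) * (b : ℤ)) ≤ u m + t b := by
        intro b hb
        by_cases hmb : (m, b) ∈ G
        · exact (h1 (m, b) (mem_filter.2 ⟨hmb, hb⟩)).ge
        · have := h2 m b (fun h => hmb (mem_filter.1 h).1) hb
          linarith
      refine ⟨fun a => if a < m then u m + 2 * ((m : ℤ) - (a : ℤ)) * (S : ℤ) +
          (if (a, S) ∈ G then 0 else 1) else u a,
        fun b => if b = S then -(2 * (m : ℤ) * (S : ℤ)) - u m else t b, ?_, ?_, ?_, ?_⟩
      · rintro ⟨a, b⟩ hc
        have hb := hG (a, b) hc
        simp only at hb ⊢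
        by_cases hbS : b = S
        · subst hbS
          rw [if_pos rfl]
          by_cases ham : a < m
          · rw [if_pos ham, if_pos hc]
            ring
          · have hame : a = m := le_antisymm (hmax a hc) (not_lt.1 ham)
            subst hame
            rw [if_neg ham]
            ring
        · have hlt : b < S := by omega
          have hma := hge a b hc hlt
          rw [if_neg hbS, if_neg (not_lt.2 hma)]
          exact h1 (a, b) (mem_filter.2 ⟨hc, hlt⟩)
      · intro a b hc hb
        simp only
        by_cases hbS : b = S
        · subst hbS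
          rw [if_pos rfl]
          by_cases ham : a < m
          · rw [if_pos ham, if_neg hc]
            apply le_of_eq
            ring
          · rw [if_neg ham]
            have hne : a ≠ m := fun h => hc (h ▸ hmG)
            obtain ⟨k, rfl⟩ := Nat.exists_eq_add_of_le (not_lt.1 ham)
            have h5 := hm m k
            have hk : (1 : ℤ) ≤ (k : ℤ) := by
              have : 1 ≤ k := by omega
              exact_mod_cast this
            push_cast
            linarith
        · have hlt : b < S := by omega
          rw [if_neg hbS]
          by_cases ham : a < m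
          · rw [if_pos ham]
            have h5 := hmb b hlt
            have h6 : (0 : ℤ) ≤ (if (a, S) ∈ G then (0 : ℤ) else 1) := by
              split_ifs <;> norm_num
            have h7 : (1 : ℤ) ≤ (m : ℤ) - (a : ℤ) := by
              have : (a : ℤ) + 1 ≤ (m : ℤ) := by exact_mod_cast ham
              linarith
            have h8 : (1 : ℤ) ≤ (S : ℤ) - (b : ℤ) := by
              have : (b : ℤ) + 1 ≤ (S : ℤ) := by exact_mod_cast hlt
              linarith
            have h9 : (1 : ℤ) ≤ ((m : ℤ) - (a : ℤ)) * ((S : ℤ) - (b : ℤ)) := by
              nlinarith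
            nlinarith
          · rw [if_neg ham]
            exact h2 a b (fun h => hc (mem_filter.1 h).1) hlt
      · intro a
        simp only
        push_cast
        by_cases ham : a + 1 < m
        · have ham' : a < m := by omega
          rw [if_pos ham, if_pos ham']
          have h6 : (0 : ℤ) ≤ (if (a + 1, S) ∈ G then (0 : ℤ) else 1) := by
            split_ifs <;> norm_num
          have h7 : (if (a, S) ∈ G then (0 : ℤ) else 1) ≤ 1 := by
            split_ifs <;> norm_num
          nlinarith
        · rw [if_neg ham]
          by_cases ham' : a < m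
          · rw [if_pos ham']
            have hame : m = a + 1 := by omega
            have h7 : (if (a, S) ∈ G then (0 : ℤ) else 1) ≤ 1 := by
              split_ifs <;> norm_num
            rw [hame]
            push_cast
            nlinarith
          · rw [if_neg ham']
            have h5 := h3 a
            nlinarith
      · intro y hy
        obtain ⟨ξ, η, hξ, hη, h5⟩ := h4 y (fun c hc => hy c (mem_filter.1 hc).1)
        have hq : y (m, S) / ξ m ≠ 0 := div_ne_zero (hy _ hmG) (hξ m)
        refine ⟨fun a => if a < m ∧ (a, S) ∈ G then y (a, S) / (y (m, S) / ξ m) else ξ a,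
          fun b => if b = S then y (m, S) / ξ m else η b, ?_, ?_, ?_⟩
        · intro a
          simp only
          split_ifs with h
          · exact div_ne_zero (hy _ h.2) hq
          · exact hξ a
        · intro b
          simp only
          split_ifs with h
          · exact hq
          · exact hη b
        · rintro ⟨a, b⟩ hc
          have hb := hG (a, b) hc
          simp only at hb ⊢
          by_cases hbS : b = S
          · subst hbS
            rw [if_pos rfl]
            by_cases ham : a < m
            · rw [if_pos ⟨ham, hc⟩]
              exact div_mul_cancel₀ _ hq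
            · have hame : a = m := le_antisymm (hmax a hc) (not_lt.1 ham)
              subst hame
              rw [if_neg (fun h => ham h.1)]
              exact mul_div_cancel₀ _ (hξ a)
          · have hlt : b < S := by omega
            have hma := hge a b hc hlt
            rw [if_neg hbS, if_neg (fun h => not_lt.2 hma h.1)]
            exact h5 (a, b) (mem_filter.2 ⟨hc, hlt⟩)
    · have hlt : ∀ a b : ℕ, (a, b) ∈ G → b < S := by
        intro a b hc
        have hb := hG (a, b) hc
        simp only at hb
        rcases Nat.lt_succ_iff_lt_or_eq.1 hb with h | h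
        · exact h
        · subst h
          exact absurd ⟨a, hc⟩ hS
      refine ⟨u, fun b => if b = S then 1 - u 0 else t b, ?_, ?_, ?_, ?_⟩
      · rintro ⟨a, b⟩ hc
        have hb := hlt a b hc
        simp only
        rw [if_neg (Nat.ne_of_lt hb)]
        exact h1 (a, b) (mem_filter.2 ⟨hc, hb⟩)
      · intro a b hc hb
        simp only
        by_cases hbS : b = S
        · subst hbS
          rw [if_pos rfl]
          have h5 := hm 0 a
          rw [Nat.zero_add] at h5
          have h6 : (0 : ℤ) ≤ (a : ℤ) := Int.natCast_nonneg a
          push_cast at h5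
          linarith
        · rw [if_neg hbS]
          exact h2 a b (fun h => hc (mem_filter.1 h).1) (by omega)
      · intro a
        have h5 := h3 a
        push_cast
        nlinarith
      · intro y hy
        obtain ⟨ξ, η, hξ, hη, h5⟩ := h4 y (fun c hc => hy c (mem_filter.1 hc).1)
        refine ⟨ξ, fun b => if b = S then 1 else η b, hξ, ?_, ?_⟩
        · intro b
          simp only
          split_ifs with h
          · exact one_ne_zero
          · exact hη b
        · rintro ⟨a, b⟩ hc
          have hb := hlt a b hc
          simp only
          rw [if_neg (Nat.ne_of_lt hb)]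
          exact h5 (a, b) (mem_filter.2 ⟨hc, hb⟩)

end Pool.Agent.LAD
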