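import Pool.Agent.Work.MP_1c6e58_ag.LAD.Stmts

/-!
# Item R1N: the exponents of R1 in the natural numbers
-/

set_option autoImplicit false

open Finset

namespace Pool.Agent.LAD

open Pool.Agent.SH Pool.Agent.COV

namespace XR1N

theorem bd (N : ℕ) (u : ℕ → ℤ) (a : ℕ) (ha : a < N) :
    -((∑ i ∈ range N, (u i).natAbs : ℕ) : ℤ) ≤ u a := by
  have h : (u a).natAbs ≤ ∑ i ∈ range N, (u i).natAbs :=
    Finset.single_le_sum (f := fun i => (u i).natAbs) (fun i _ => Nat.zero_le _)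
      (Finset.mem_range.2 ha)
  omega

end XR1N

theorem I_R1N (hR1 : St_R1) : St_R1N := by
  intro N G hG hch
  obtain ⟨u, t, h1, h2, -, h4⟩ := hR1 N G (fun c hc => (hG c hc).2) hch
  obtain ⟨K1, hK1⟩ : ∃ K1 : ℕ, ∀ a < N, -(K1 : ℤ) ≤ u a := ⟨_, fun a ha => XR1N.bd N u a ha⟩
  obtain ⟨K2, hK2⟩ : ∃ K2 : ℕ, ∀ b < N, -(K2 : ℤ) ≤ t b := ⟨_, fun b hb => XR1N.bd N t b hb⟩
  refine ⟨K1 + K2, fun K hK => ⟨fun a => (u a + K1 + ((K : ℤ) - (K1 + K2))).toNat,
    fun b => (t b + K2).toNat, ?_, ?_, ?_⟩⟩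
  · intro c hc
    have e1 : (((u c.1 + K1 + ((K : ℤ) - (K1 + K2))).toNat : ℕ) : ℤ)
        = u c.1 + K1 + ((K : ℤ) - (K1 + K2)) := by
      apply Int.toNat_of_nonneg
      have := hK1 c.1 (hG c hc).1
      have : (K1 : ℤ) + K2 ≤ K := by exact_mod_cast hK
      omega
    have e2 : (((t c.2 + K2).toNat : ℕ) : ℤ) = t c.2 + K2 := by
      apply Int.toNat_of_nonneg
      have := hK2 c.2 (hG c hc).2
      omega
    have h := h1 c hc
    zify
    rw [e1, e2]
    linarith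
  · intro a b ha hb hab
    have e1 : (((u a + K1 + ((K : ℤ) - (K1 + K2))).toNat : ℕ) : ℤ)
        = u a + K1 + ((K : ℤ) - (K1 + K2)) := by
      apply Int.toNat_of_nonneg
      have := hK1 a ha
      have : (K1 : ℤ) + K2 ≤ K := by exact_mod_cast hK
      omega
    have e2 : (((t b + K2).toNat : ℕ) : ℤ) = t b + K2 := by
      apply Int.toNat_of_nonneg
      have := hK2 b hb
      omega
    have h := h2 a b hab hb
    zify
    rw [e1, e2]
    linarith
  · intro y hy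
    obtain ⟨ξ, η, -, -, h⟩ := h4 y hy
    exact ⟨ξ, η, h⟩

end Pool.Agent.LAD
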