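import Pool.Agent.Work.MP_1c6e58_ag.LAD.Stmts

/-!
MP_1c6e58_ag, project COV, ladder half: item RHOB.
-/

set_option autoImplicit false

open Finset

namespace Pool.Agent.LAD

open Pool.Agent.SH Pool.Agent.COV

namespace XRHOB

theorem inc {n : ℕ} (s : Fin n → ℕ) (h : ∀ i j, i < j → s i < s j) :
    ∀ (d : ℕ) (i j : Fin n), j.1 = i.1 + d → s i + d ≤ s j
  | 0, i, j, hj => by
      have : i = j := Fin.ext (by omega)
      subst this
      simp
  | d + 1, i, j, hj => by
      have hlt : i.1 + d < n := by have := j.2; omega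
      have h1 := inc s h d i ⟨i.1 + d, hlt⟩ rfl
      have h2 := h ⟨i.1 + d, hlt⟩ j (by rw [Fin.lt_def]; simp only; omega)
      omega

/-- A strict chain which starts at `e0` and fits into a box of side `r + 1` is diagonal. -/
theorem diag {r a b : ℕ} (s : Fin (r + 1) → ℕ × ℕ) (h : ∀ i j, i < j → Dlt (s i) (s j))
    (hs : ∀ i, (s i).1 < a + r + 1 ∧ (s i).2 < b + r + 1) (h0 : s 0 = (a, b))
    (k : Fin (r + 1)) : s k = (a + k.1, b + k.1) := by
  have i1 : ∀ i j, i < j → (s i).1 < (s j).1 := fun i j hij => (h i j hij).1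
  have i2 : ∀ i j, i < j → (s i).2 < (s j).2 := fun i j hij => (h i j hij).2
  have hk := k.2
  have a1 := inc (fun i => (s i).1) i1 k.1 0 k (by simp)
  have a2 := inc (fun i => (s i).2) i2 k.1 0 k (by simp)
  have b1 := inc (fun i => (s i).1) i1 (r - k.1) k (Fin.last r) (by simp; omega)
  have b2 := inc (fun i => (s i).2) i2 (r - k.1) k (Fin.last r) (by simp; omega)
  have c := hs (Fin.last r)
  simp only [h0] at a1 a2
  ext
  · simp only; omega
  · simp only; omega

end XRHOB

open XRHOB in
theorem I_RHOB (hGGE : St_GGE) (hGOODL : St_GOODL) : St_RHOB := by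
  classical
  intro Q _ A B ρ hL l
  obtain ⟨g1, g2, _, _⟩ := hGGE Q A B ρ Set.univ
  obtain ⟨_, _, k3, k4⟩ := hGGE Q A B ρ {q | q ≠ l}
  have hgood := hGOODL Q A B ρ
  have hA := hL.ltA l
  have hB := hL.ltB l
  rcases Nat.eq_zero_or_pos (ρ l) with h0 | hpos
  · have : FL A B ρ ∈ GoodN A B ρ (FL A B ρ).card := (mem_GoodN _).2 ⟨hgood, rfl⟩
    have := Finset.card_pos.2 ⟨_, this⟩
    omega
  obtain ⟨a, ha⟩ : ∃ a, A l = a + ρ l + 1 := ⟨A l - ρ l - 1, by omega⟩
  obtain ⟨b, hb⟩ : ∃ b, B l = b + ρ l + 1 := ⟨B l - ρ l - 1, by omega⟩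
  -- the other terms
  have hoth : ∀ q, q ≠ l → ∀ i, (i + 1) + A q ≤ ρ q + (a + i) + 1 ∨
      (i + 1) + B q ≤ ρ q + (b + i) + 1 := by
    intro q hq i
    have hA' := hL.ltA q
    have hB' := hL.ltB q
    rcases hL.ord q l hq with h | h
    · right; omega
    · left; omega
  have hG : ∀ i, Gge A B ρ Set.univ i (a + i, b + i) := by
    intro i
    refine ⟨by simp only; omega, by simp only; omega, fun q _ => ?_⟩
    by_cases hq : q = l
    · subst hq; left; simp only; omega
    · rcases hoth q hq i with h | h
      · left; simp only; omega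
      · right; simp only; omega
  have hG' : Gge A B ρ {q | q ≠ l} 1 (a, b) := by
    refine ⟨by simp only; omega, by simp only; omega, fun q hq => ?_⟩
    rcases hoth q hq 0 with h | h
    · left; simp only; omega
    · right; simp only; omega
  have hN : ¬ Gge A B ρ Set.univ 1 (a, b) := by
    rintro ⟨-, -, h⟩
    rcases h l (Set.mem_univ _) with h | h
    · simp only at h; omega
    · simp only at h; omega
  have hYY : ∀ i, i ≤ ρ l → (a + i, b + i) ∈ YY A B := by
    intro i hi
    rw [mem_YY]
    exact ⟨l, by simp only; omega, by simp only; omega⟩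
  have hFL : ∀ i, 1 ≤ i → i ≤ ρ l → (a + i, b + i) ∈ FL A B ρ := by
    intro i h1 h2
    rw [mem_FL]
    exact ⟨hYY i h2, g1 i 1 _ _ h1 le_rfl le_rfl (hG i)⟩
  have hn0 : (a, b) ∉ FL A B ρ := fun h => hN ((mem_FL _).1 h).2
  have hmem : ∀ i, i ≤ ρ l → (a + i, b + i) ∈ insert (a, b) (FL A B ρ) := by
    intro i hi
    rcases Nat.eq_zero_or_pos i with h | h
    · subst h; simp
    · exact mem_insert_of_mem (hFL i h hi)
  have hgoodj : ∀ j, j ≤ ρ l → Good A B ρ ((insert (a, b) (FL A B ρ)).erase (a + j, b + j)) := by
    intro j hj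
    rcases Nat.eq_zero_or_pos j with h | hj1
    · subst h
      have : (insert (a, b) (FL A B ρ)).erase (a + 0, b + 0) = FL A B ρ := by
        simp only [Nat.add_zero]
        exact erase_insert hn0
      rw [this]
      exact hgood
    · refine ⟨?_, ?_⟩
      · refine (erase_subset _ _).trans ?_
        rw [insert_subset_iff]
        exact ⟨by simpa using hYY 0 (Nat.zero_le _), hgood.sub⟩
      · rintro q ⟨s, hs, hs'⟩
        by_cases hq : q = l
        · subst hq
          by_cases hex : ∃ i, s i = (a, b)
          · obtain ⟨i0, hi0⟩ := hex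
            have hz : s 0 = (a, b) := by
              by_contra hne
              have hlt : (0 : Fin (ρ q + 1)) < i0 := by
                rcases Fin.eq_zero_or_eq_succ i0 with h | ⟨k, h⟩
                · subst h; exact absurd hi0 hne
                · subst h; exact Fin.succ_pos _
              have hd := hs 0 i0 hlt
              have h3 := (hs' 0).1
              have h4 := mem_of_mem_erase h3
              rw [mem_insert] at h4
              rcases h4 with h4 | h4
              · exact hne h4
              · have h5 := g2 1 _ _ ((mem_FL _).1 h4).2 hd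
                rw [hi0] at h5
                exact hN (g1 _ 1 _ _ (by omega) le_rfl le_rfl h5)
            have hdg := diag s hs (fun i => ⟨by have := (hs' i).2.1; omega,
              by have := (hs' i).2.2; omega⟩) hz ⟨j, by omega⟩
            have h6 := (hs' ⟨j, by omega⟩).1
            rw [hdg] at h6
            exact notMem_erase _ _ h6
          · push Not at hex
            refine hgood.nch q ⟨s, hs, fun i => ⟨?_, (hs' i).2⟩⟩
            have h4 := mem_of_mem_erase (hs' i).1
            rw [mem_insert] at h4
            exact h4.resolve_left (hex i)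
        · have hall : ∀ i, Gge A B ρ {q | q ≠ l} 1 (s i) := by
            intro i
            have h4 := mem_of_mem_erase (hs' i).1
            rw [mem_insert] at h4
            rcases h4 with h4 | h4
            · rw [h4]; exact hG'
            · obtain ⟨x1, x2, x3⟩ := ((mem_FL _).1 h4).2
              exact ⟨x1, x2, fun q _ => x3 q (Set.mem_univ _)⟩
          have h7 := k4 1 (ρ q) s hs (hall 0)
          have h8 := k3 _ _ q hq h7 (hs' _).2.1 (hs' _).2.2
          omega
  have hcard : ∀ j, j ≤ ρ l →
      ((insert (a, b) (FL A B ρ)).erase (a + j, b + j)).card = (FL A B ρ).card := by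
    intro j hj
    rw [card_erase_of_mem (hmem j hj), card_insert_of_notMem hn0]
    omega
  have := Finset.card_le_card_of_injOn (s := range (ρ l + 1))
    (t := GoodN A B ρ (FL A B ρ).card)
    (fun j => (insert (a, b) (FL A B ρ)).erase (a + j, b + j)) ?_ ?_
  · simpa using this
  · intro j hj
    have hj' : j ≤ ρ l := by simpa [Nat.lt_succ_iff] using hj
    exact mem_coe.2 ((mem_GoodN _).2 ⟨hgoodj j hj', hcard j hj'⟩)
  · intro j hj j' hj' heq
    have h1 : j ≤ ρ l := by simpa [Nat.lt_succ_iff] using hj
    have h2 : j' ≤ ρ l := by simpa [Nat.lt_succ_iff] using hj'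
    by_contra hne
    simp only at heq
    have h3 : (a + j', b + j') ∈ (insert (a, b) (FL A B ρ)).erase (a + j, b + j) := by
      refine mem_erase.2 ⟨?_, hmem j' h2⟩
      intro h
      have := congrArg Prod.fst h
      simp only at this
      omega
    rw [heq] at h3
    exact notMem_erase _ _ h3

end Pool.Agent.LAD
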