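import Pool.Agent.Work.MP_1c6e58_ag.LAD.Stmts

/-!
MP_1c6e58_ag, project COV, ladder half, item ROWA.
-/

set_option autoImplicit false

open Finset

namespace Pool.Agent.LAD

open Pool.Agent.SH Pool.Agent.COV

namespace XROWA

/-- The cells which are moved. -/
def RR (a b k : ℕ) : Finset (ℕ × ℕ) := (range k).image (fun i => (a - i, b))

lemma mem_RR {a b k : ℕ} (c : ℕ × ℕ) : c ∈ RR a b k ↔ ∃ i, i < k ∧ c = (a - i, b) := by
  unfold RR
  simp only [mem_image, mem_range]
  constructor
  · rintro ⟨i, hi, rfl⟩
    exact ⟨i, hi, rfl⟩
  · rintro ⟨i, hi, rfl⟩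
    exact ⟨i, hi, rfl⟩

lemma card_RR {a b k : ℕ} (h : k ≤ a) : (RR a b k).card = k := by
  unfold RR
  rw [card_image_of_injOn, card_range]
  intro i hi i' hi' h'
  simp only [coe_range, Set.mem_Iio, Prod.mk.injEq, and_true] at hi hi' h'
  omega

end XROWA

open XROWA in
theorem I_ROWA (hMOD : St_MOD) : St_ROWA := by
  intro Q _ A B ρ hL q hq j hj hq'
  have hA := hL.ltA q
  have hB := hL.ltB q
  -- the other conditions
  have hoth : ∀ q', q' ≠ q → (B q' - ρ q' < B q - ρ q) ∨ (A q' - ρ q' + j ≤ A q - ρ q) := by
    intro q' hne
    rcases hL.ord q q' hne.symm with ⟨-, -, h3, -⟩ | ⟨-, -, -, h4⟩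
    · exact Or.inr (hq' q' h3)
    · exact Or.inl h4
  have hmod : ∀ k, k ≤ j → mvd A B ρ (RR (A q - ρ q) (B q - ρ q) k) ∈
      GoodN A B ρ (FL A B ρ).card ∧
      FL A B ρ \ mvd A B ρ (RR (A q - ρ q) (B q - ρ q) k) = RR (A q - ρ q) (B q - ρ q) k := by
    intro k hk
    refine hMOD Q A B ρ _ ?_ ?_ ?_
    · intro c hc
      obtain ⟨i, hi, rfl⟩ := (mem_RR c).1 hc
      rw [mem_FL, mem_YY]
      refine ⟨⟨q, ?_, ?_⟩, ?_, ?_, ?_⟩
      · show A q - ρ q - i < A q
        omega
      · show B q - ρ q < B q
        omega
      · show 1 ≤ A q - ρ q - i + 1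
        omega
      · show 1 ≤ B q - ρ q + 1
        omega
      · intro q' _
        show 1 + A q' ≤ ρ q' + (A q - ρ q - i) + 1 ∨ 1 + B q' ≤ ρ q' + (B q - ρ q) + 1
        by_cases hne : q' = q
        · right
          rw [hne]
          omega
        · have h1 := hL.ltA q'
          have h2 := hL.ltB q'
          rcases hoth q' hne with h | h
          · right
            omega
          · left
            omega
    · intro r hr
      obtain ⟨i, hi, rfl⟩ := (mem_RR r).1 hr
      refine ⟨?_, ?_, ?_, ?_⟩
      · show 1 ≤ A q - ρ q - i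
        omega
      · show 1 ≤ B q - ρ q
        omega
      · rintro ⟨-, -, h3⟩
        have h3' : 2 + A q ≤ ρ q + (A q - ρ q - i) + 1 ∨ 2 + B q ≤ ρ q + (B q - ρ q) + 1 :=
          h3 q (Set.mem_univ q)
        omega
      · intro q' h0
        show ¬ (A q - ρ q - i - 1 < A q' ∧ B q - ρ q - 1 < B q')
        have hne : q' ≠ q := by
          intro h
          rw [h] at h0
          omega
        rcases hoth q' hne with h | h <;> omega
    · intro r hr c hc hcR h1 h2
      obtain ⟨i, hi, rfl⟩ := (mem_RR r).1 hr
      have h1' : A q - ρ q - i ≤ c.1 := h1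
      have h2' : B q - ρ q ≤ c.2 := h2
      refine ⟨by omega, by omega, ?_⟩
      intro q' _
      by_cases hne : q' = q
      · rw [hne]
        by_cases h3 : B q - ρ q + 1 ≤ c.2
        · right
          omega
        · left
          have h4 : c.2 = B q - ρ q := by omega
          have h5 : A q - ρ q < c.1 := by
            by_contra h6
            apply hcR
            rw [mem_RR]
            refine ⟨A q - ρ q - c.1, by omega, ?_⟩
            apply Prod.ext
            · show c.1 = A q - ρ q - (A q - ρ q - c.1)
              omega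
            · exact h4
          omega
      · have h3 := hL.ltA q'
        have h4 := hL.ltB q'
        rcases hoth q' hne with h | h
        · right
          omega
        · left
          omega
  calc j + 1 = (range (j + 1)).card := (card_range _).symm
    _ ≤ (GoodN A B ρ (FL A B ρ).card).card := by
        refine card_le_card_of_injOn
          (fun k => mvd A B ρ (RR (A q - ρ q) (B q - ρ q) k)) ?_ ?_
        · intro k hk
          exact (hmod k (by simpa using hk)).1
        · intro k hk k' hk' h
          have e1 := (hmod k (by simpa using hk)).2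
          have e2 := (hmod k' (by simpa using hk')).2
          simp only at h
          rw [h, e2] at e1
          have e3 := congrArg Finset.card e1
          have hk1 : k < j + 1 := by simpa using hk
          have hk2 : k' < j + 1 := by simpa using hk'
          rw [card_RR (by omega), card_RR (by omega)] at e3
          exact e3.symm

end Pool.Agent.LAD
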