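import Pool.Agent.Work.MP_1c6e58_ag.LAD.Stmts

/-!
MP_1c6e58_ag, project COV, ladder half: item TWO.
-/

set_option autoImplicit false

open Finset

namespace Pool.Agent.LAD

open Pool.Agent.SH Pool.Agent.COV

namespace XTWO

variable {Q : Type}

/-- The corner of the rectangle `l`. -/
def cor (A B ρ : Q → ℕ) (l : Q) : ℕ × ℕ := (A l - ρ l, B l - ρ l)

/-- The corners of the rectangles in `S`. -/
def RS (A B ρ : Q → ℕ) (S : Finset Q) : Finset (ℕ × ℕ) := S.image (cor A B ρ)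

theorem cor_inj {A B ρ : Q → ℕ} (h : Ladd A B ρ) : Function.Injective (cor A B ρ) := by
  intro q q' e
  by_contra hne
  have e1 : A q - ρ q = A q' - ρ q' := congrArg Prod.fst e
  rcases h.ord q q' hne with h1 | h1
  · omega
  · omega

/-- Comparison of two corners. -/
theorem cmp {A B ρ : Q → ℕ} (h : Ladd A B ρ) {l q : Q} (hne : q ≠ l) :
    A q - ρ q < A l - ρ l ∨ B q - ρ q < B l - ρ l := by
  rcases h.ord l q (Ne.symm hne) with h1 | h1
  · exact Or.inl h1.2.2.1
  · exact Or.inr h1.2.2.2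

theorem gge_one {A B ρ : Q → ℕ} (h : Ladd A B ρ) (l : Q) :
    Gge A B ρ Set.univ 1 (cor A B ρ l) := by
  refine ⟨by omega, by omega, fun q _ => ?_⟩
  show 1 + A q ≤ ρ q + (A l - ρ l) + 1 ∨ 1 + B q ≤ ρ q + (B l - ρ l) + 1
  have ha := h.ltA q
  have hb := h.ltB q
  by_cases hq : q = l
  · subst hq
    left
    omega
  · rcases cmp h hq with h1 | h1
    · left
      omega
    · right
      omega

theorem gge_two {A B ρ : Q → ℕ} (h : Ladd A B ρ) (l : Q) (c : ℕ × ℕ)
    (h1 : A l - ρ l ≤ c.1) (h2 : B l - ρ l ≤ c.2) (hne : c ≠ cor A B ρ l) :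
    Gge A B ρ Set.univ 2 c := by
  have hal := h.ltA l
  have hbl := h.ltB l
  refine ⟨by omega, by omega, fun q _ => ?_⟩
  have ha := h.ltA q
  have hb := h.ltB q
  by_cases hq : q = l
  · subst hq
    by_cases h3 : A q - ρ q = c.1
    · by_cases h4 : B q - ρ q = c.2
      · exact absurd (Prod.ext h3.symm h4.symm) hne
      · right
        omega
    · left
      omega
  · rcases cmp h hq with h3 | h3
    · left
      omega
    · right
      omega

theorem mem_RS {A B ρ : Q → ℕ} {S : Finset Q} {r : ℕ × ℕ} (hr : r ∈ RS A B ρ S) :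
    ∃ l ∈ S, cor A B ρ l = r := mem_image.1 hr

theorem sub [Fintype Q] {A B ρ : Q → ℕ} (h : Ladd A B ρ) {S : Finset Q} (hS : ∀ l ∈ S, 1 ≤ ρ l) :
    RS A B ρ S ⊆ FL A B ρ := by
  intro r hr
  obtain ⟨l, hl, rfl⟩ := mem_RS hr
  rw [mem_FL]
  refine ⟨?_, gge_one h l⟩
  rw [mem_YY]
  have h1 := hS l hl
  have ha := h.ltA l
  have hb := h.ltB l
  refine ⟨l, ?_, ?_⟩
  · show A l - ρ l < A l
    omega
  · show B l - ρ l < B l
    omega

theorem main [Fintype Q] {A B ρ : Q → ℕ} (hMOD : St_MOD) (h : Ladd A B ρ) {S : Finset Q}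
    (hS : ∀ l ∈ S, 1 ≤ ρ l) :
    mvd A B ρ (RS A B ρ S) ∈ GoodN A B ρ (FL A B ρ).card ∧
      FL A B ρ \ mvd A B ρ (RS A B ρ S) = RS A B ρ S := by
  refine hMOD Q A B ρ (RS A B ρ S) (sub h hS) ?_ ?_
  · intro r hr
    obtain ⟨l, hl, rfl⟩ := mem_RS hr
    have h1 := hS l hl
    have ha := h.ltA l
    have hb := h.ltB l
    refine ⟨?_, ?_, ?_, ?_⟩
    · show 1 ≤ A l - ρ l
      omega
    · show 1 ≤ B l - ρ l
      omega
    · intro hg
      have h2 : 2 + A l ≤ ρ l + (A l - ρ l) + 1 ∨ 2 + B l ≤ ρ l + (B l - ρ l) + 1 :=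
        hg.2.2 l (Set.mem_univ l)
      omega
    · intro q hq hh
      have h2 : A l - ρ l - 1 < A q := hh.1
      have h3 : B l - ρ l - 1 < B q := hh.2
      have hne : q ≠ l := by
        intro e
        rw [e] at hq
        omega
      rcases cmp h hne with h4 | h4
      · omega
      · omega
  · intro r hr c hc hcR h1 h2
    obtain ⟨l, hl, rfl⟩ := mem_RS hr
    refine gge_two h l c h1 h2 ?_
    intro e
    exact hcR (e ▸ hr)

end XTWO

open XTWO in
theorem I_TWO (hMOD : St_MOD) : St_TWO := by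
  classical
  intro Q _ A B ρ h
  rw [← Finset.card_powerset]
  have hS : ∀ S ∈ (Finset.univ.filter (fun q : Q => 1 ≤ ρ q)).powerset, ∀ l ∈ S, 1 ≤ ρ l := by
    intro S hS l hl
    exact (mem_filter.1 (mem_powerset.1 hS hl)).2
  refine Finset.card_le_card_of_injOn (fun S => mvd A B ρ (RS A B ρ S)) ?_ ?_
  · intro S hSm
    exact (main hMOD h (hS S hSm)).1
  · intro S hSm S' hSm' e
    have e1 := (main hMOD h (hS S hSm)).2
    have e2 := (main hMOD h (hS S' hSm')).2
    have e3 : mvd A B ρ (RS A B ρ S) = mvd A B ρ (RS A B ρ S') := e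
    rw [e3, e2] at e1
    exact (Finset.image_injective (cor_inj h) e1).symm

end Pool.Agent.LAD
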