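import Pool.Agent.Work.MP_1c6e58_ag.LAD.Stmts

/-!
MP_1c6e58_ag, project COV, ladder half: item UPR, exponents with a long chain in the support.
-/

set_option autoImplicit false

open Finset

namespace Pool.Agent.LAD

open Pool.Agent.SH Pool.Agent.COV

namespace XUPR

theorem mnr_eval {σ : Type} (m : ℕ) (x : Fin m → Fin m → σ) (M : σ → ℂ) :
    MvPolynomial.aeval M (mnr m x) = Matrix.det (Matrix.of fun i j => M (x i j)) := by
  unfold mnr
  rw [AlgHom.map_det]
  congr 1
  ext i j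
  simp

theorem le_of {σ : Type} (m : ℕ) (y : Fin m → σ) (hy : Function.Injective y) (α : σ →₀ ℕ)
    (h : ∀ i, y i ∈ α.support) : ∑ i, Finsupp.single (y i) 1 ≤ α := by
  classical
  intro c
  rw [Finsupp.finsetSum_apply]
  by_cases hc : ∃ i, y i = c
  · obtain ⟨i, rfl⟩ := hc
    rw [Finset.sum_eq_single i]
    · rw [Finsupp.single_eq_same]
      exact Nat.one_le_iff_ne_zero.2 (Finsupp.mem_support_iff.1 (h i))
    · intro j _ hj
      exact Finsupp.single_eq_of_ne (fun h' => hj (hy h'.symm))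
    · intro h1; exact absurd (Finset.mem_univ i) h1
  · rw [Finset.sum_eq_zero]
    · exact Nat.zero_le _
    · intro j _
      exact Finsupp.single_eq_of_ne (fun h' => hc ⟨j, h'.symm⟩)

end XUPR

open XUPR in
/-- Exponents with a long chain in the support are lowest exponents. -/
theorem I_UPR (hDETZ : St_DETZ) (hREAR : St_REAR) (hMINT : St_MINT) (hUP : SH.St_UP) :
    St_UPR := by
  classical
  intro Q _ A B ρ o ho α hα
  have hsub : cells α.support ⊆ YY A B := by
    intro c hc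
    obtain ⟨h, _⟩ := (mem_cells _ c).1 hc
    exact (mem_YY c).2 h
  have hq : ∃ q, Chn (cells α.support) (ρ q + 1) (A q) (B q) := by
    by_contra h
    exact hα ⟨hsub, fun q hq => h ⟨q, hq⟩⟩
  obtain ⟨q, s, hs, hm⟩ := hq
  let x : Fin (ρ q + 1) → Fin (ρ q + 1) → LCell A B := fun i j =>
    ⟨((s i).1, (s j).2), q, (hm i).2.1, (hm j).2.2⟩
  have hsa : StrictMono (fun i => (s i).1) := fun i j hij => (hs i j hij).1
  have hsb : StrictMono (fun i => (s i).2) := fun i j hij => (hs i j hij).2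
  have hvan : mnr (ρ q + 1) x ∈ MvPolynomial.vanishingIdeal ℂ (Zlad A B ρ) := by
    rw [MvPolynomial.mem_vanishingIdeal_iff]
    intro M hM
    rw [mnr_eval]
    obtain ⟨f, g, hfg⟩ := hM q
    rw [← hDETZ (ρ q) f g (fun i => (s i).1) (fun j => (s j).2)]
    congr 1
    ext i j
    exact hfg (x i j) (hm i).2.1 (hm j).2.2
  have hwt : ∀ π : Equiv.Perm (Fin (ρ q + 1)), π ≠ 1 →
      ∑ i, wt (x i i).1 < ∑ i, wt (x i (π i)).1 := by
    intro π hπ
    have h1 := hREAR (ρ q + 1) (fun i => (s i).1) (fun i => (s i).2) hsa hsb π hπ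
    have h2 : (∑ i, (((s i).1 : ℤ) * ((s (π i)).2 : ℤ))) < ∑ i, (((s i).1 : ℤ) * ((s i).2 : ℤ)) := by
      exact_mod_cast h1
    have h3 : ∑ i, wt (x i i).1 = -(2 * ∑ i, (((s i).1 : ℤ) * ((s i).2 : ℤ))) := by
      rw [Finset.mul_sum, ← Finset.sum_neg_distrib]
      apply Finset.sum_congr rfl
      intro i _
      show -(2 * ((s i).1 : ℤ) * ((s i).2 : ℤ)) = _
      ring
    have h4 : ∑ i, wt (x i (π i)).1 = -(2 * ∑ i, (((s i).1 : ℤ) * ((s (π i)).2 : ℤ))) := by
      rw [Finset.mul_sum, ← Finset.sum_neg_distrib]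
      apply Finset.sum_congr rfl
      intro i _
      show -(2 * ((s i).1 : ℤ) * ((s (π i)).2 : ℤ)) = _
      ring
    rw [h3, h4]
    linarith
  obtain ⟨m1, m2⟩ := hMINT (LCell A B) (fun c => wt c.1) o ho (ρ q + 1) x hwt
  have hL : (∑ i, Finsupp.single (x i i) 1) ∈
      Lset o (MvPolynomial.vanishingIdeal ℂ (Zlad A B ρ)) := ⟨_, hvan, m1, m2⟩
  have hxinj : Function.Injective (fun i => x i i) := by
    intro i j hij
    have h1 : (s i).1 = (s j).1 := congrArg (fun c : LCell A B => c.1.1) hij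
    exact hsa.injective h1
  have hxs : ∀ i, x i i ∈ α.support := by
    intro i
    obtain ⟨h, h'⟩ := (mem_cells _ (s i)).1 (hm i).1
    exact h'
  have hle := le_of (ρ q + 1) (fun i => x i i) hxinj α hxs
  have hfin := hUP (LCell A B) o _ _ (α - ∑ i, Finsupp.single (x i i) 1) hL
  rwa [add_tsub_cancel_of_le hle] at hfin

end Pool.Agent.LAD
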