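import Pool.Agent.Work.MP_1c6e58_ag.LAD.Stmts

/-!
MP_1c6e58_ag, ladder half, item WORD: orders which refine the degree and a weight.
-/

set_option autoImplicit false

open Finset

namespace Pool.Agent.LAD

open Pool.Agent.SH Pool.Agent.COV

namespace XWORD

variable {σ : Type} [Fintype σ]

/-- The map into the lexicographic product. -/
noncomputable def F (w : σ → ℤ) (o1 : LOrd σ) : (σ →₀ ℕ) →+ ℕ ×ₗ (ℤ ×ₗ o1.S) where
  toFun γ := toLex (γ.degree, toLex (∑ c, (γ c : ℤ) * w c, o1.f γ))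
  map_zero' := by
    simp only [map_zero, Finsupp.coe_zero, Pi.zero_apply, Nat.cast_zero, zero_mul,
      Finset.sum_const_zero]
    rfl
  map_add' γ γ' := by
    simp only [map_add, Finsupp.coe_add, Pi.add_apply, Nat.cast_add, add_mul,
      Finset.sum_add_distrib]
    rfl

end XWORD

theorem I_WORD (hORD : SH.St_ORD) : St_WORD := by
  intro σ _ w
  obtain ⟨o1⟩ := hORD σ
  refine ⟨{ S := ℕ ×ₗ (ℤ ×ₗ o1.S), f := XWORD.F w o1, inj := ?_, deg := ?_ }, ?_⟩
  · intro γ γ' h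
    have h1 : (γ.degree, toLex (∑ c, (γ c : ℤ) * w c, o1.f γ)) =
        (γ'.degree, toLex (∑ c, (γ' c : ℤ) * w c, o1.f γ')) := toLex.injective h
    have h2 := (Prod.mk.inj h1).2
    have h3 : (∑ c, (γ c : ℤ) * w c, o1.f γ) = (∑ c, (γ' c : ℤ) * w c, o1.f γ') :=
      toLex.injective h2
    exact o1.inj (Prod.mk.inj h3).2
  · intro γ γ' h
    show toLex (γ.degree, toLex (∑ c, (γ c : ℤ) * w c, o1.f γ)) <
      toLex (γ'.degree, toLex (∑ c, (γ' c : ℤ) * w c, o1.f γ'))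
    rw [Prod.Lex.toLex_lt_toLex]
    exact Or.inl h
  · intro γ γ' h h'
    show toLex (γ.degree, toLex (∑ c, (γ c : ℤ) * w c, o1.f γ)) <
      toLex (γ'.degree, toLex (∑ c, (γ' c : ℤ) * w c, o1.f γ'))
    rw [Prod.Lex.toLex_lt_toLex, Prod.Lex.toLex_lt_toLex]
    exact Or.inr ⟨h, Or.inl h'⟩

end Pool.Agent.LAD
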