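import Pool.Agent.Work.MP_1c6e58_ag.LAD.Stmts

/-!
MP_1c6e58_ag, ladder half, item VANF: polynomials which vanish on the torus of a set of variables.
-/

set_option autoImplicit false

open Finset

namespace Pool.Agent.LAD.FinQ

open Pool.Agent.SH Pool.Agent.COV

open Classical in
theorem I_VANF : St_VANF := by
  intro σ _ F p hp α hα
  set p' : MvPolynomial σ ℂ := ∑ β ∈ p.support.filter (fun β => β.support ⊆ F),
    MvPolynomial.monomial β (p.coeff β) with hp'
  have hev : ∀ z : σ → ℂ, MvPolynomial.eval z p' =
      MvPolynomial.eval (fun c => if c ∈ F then z c else 0) p := by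
    intro z
    rw [hp', map_sum, MvPolynomial.eval_eq, Finset.sum_filter]
    apply Finset.sum_congr rfl
    intro β _
    split_ifs with h
    · rw [MvPolynomial.eval_monomial, Finsupp.prod]
      congr 1
      apply Finset.prod_congr rfl
      intro c hc
      rw [if_pos (h hc)]
    · rw [Finset.not_subset] at h
      obtain ⟨c, hc, hcF⟩ := h
      symm
      rw [Finset.prod_eq_zero hc, mul_zero]
      rw [if_neg hcF]
      exact zero_pow (Finsupp.mem_support_iff.1 hc)
  have h0 : p' * ∏ c ∈ F, (MvPolynomial.X c : MvPolynomial σ ℂ) = 0 := by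
    apply MvPolynomial.funext
    intro z
    rw [map_mul, map_zero, map_prod]
    simp only [MvPolynomial.eval_X]
    by_cases hz : ∀ c ∈ F, z c ≠ 0
    · rw [hev z, hp (fun c => if c ∈ F then z c else 0), zero_mul]
      · intro c hc
        rw [if_pos hc]
        exact hz c hc
      · intro c hc
        rw [if_neg hc]
    · push Not at hz
      obtain ⟨c, hc, hc0⟩ := hz
      rw [Finset.prod_eq_zero hc hc0, mul_zero]
  have h1 : p' = 0 := by
    rcases mul_eq_zero.1 h0 with h | h
    · exact h
    · exfalso
      rw [Finset.prod_eq_zero_iff] at h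
      obtain ⟨c, -, hc⟩ := h
      exact MvPolynomial.X_ne_zero c hc
  have h2 : p'.coeff α = p.coeff α := by
    rw [hp', MvPolynomial.coeff_sum]
    simp only [MvPolynomial.coeff_monomial]
    rw [Finset.sum_ite_eq']
    split_ifs with h
    · rfl
    · rw [Finset.mem_filter, not_and_or] at h
      rcases h with h | h
      · exact (MvPolynomial.notMem_support_iff.1 h).symm
      · exact absurd hα.subset h
  rw [← h2, h1, MvPolynomial.coeff_zero]

end Pool.Agent.LAD.FinQ
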