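import Pool.Agent.Work.MP_1c6e58_ag.LAD.P_COEFM
import Pool.Agent.Work.MP_1c6e58_ag.LAD.P_COLB
import Pool.Agent.Work.MP_1c6e58_ag.LAD.P_CURVE
import Pool.Agent.Work.MP_1c6e58_ag.LAD.P_DETZ
import Pool.Agent.Work.MP_1c6e58_ag.LAD.P_GGE
import Pool.Agent.Work.MP_1c6e58_ag.LAD.P_HOMC
import Pool.Agent.Work.MP_1c6e58_ag.LAD.P_CNTS
import Pool.Agent.Work.MP_1c6e58_ag.LAD.P_LADM
import Pool.Agent.Work.MP_1c6e58_ag.LAD.P_LEV
import Pool.Agent.Work.MP_1c6e58_ag.LAD.P_LMQ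
import Pool.Agent.Work.MP_1c6e58_ag.LAD.P_LOW
import Pool.Agent.Work.MP_1c6e58_ag.LAD.P_LOWV
import Pool.Agent.Work.MP_1c6e58_ag.LAD.P_MASK
import Pool.Agent.Work.MP_1c6e58_ag.LAD.P_MAXC
import Pool.Agent.Work.MP_1c6e58_ag.LAD.P_MINT
import Pool.Agent.Work.MP_1c6e58_ag.LAD.P_MOD
import Pool.Agent.Work.MP_1c6e58_ag.LAD.P_MQG
import Pool.Agent.Work.MP_1c6e58_ag.LAD.P_R1
import Pool.Agent.Work.MP_1c6e58_ag.LAD.P_R1N
import Pool.Agent.Work.MP_1c6e58_ag.LAD.P_REAR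
import Pool.Agent.Work.MP_1c6e58_ag.LAD.P_RHOB
import Pool.Agent.Work.MP_1c6e58_ag.LAD.P_ROWA
import Pool.Agent.Work.MP_1c6e58_ag.LAD.P_TWO
import Pool.Agent.Work.MP_1c6e58_ag.LAD.P_UPR
import Pool.Agent.Work.MP_1c6e58_ag.LAD.P_WORD
import Pool.Agent.Work.MP_1c6e58_ag.LAD.Q_GOODL
import Pool.Agent.Work.MP_1c6e58_ag.LAD.Q_VANF
import Pool.Agent.Work.MP_1c6e58_ag.SH.P_ORD
import Pool.Agent.Work.MP_1c6e58_ag.SH.P_HG
import Pool.Agent.Work.MP_1c6e58_ag.SH.P_UP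

/-!
MP_1c6e58_ag, project COV, ladder half: the ladder theorem, without hypotheses.
-/

set_option autoImplicit false

open Finset

namespace Pool.Agent.LAD

open Pool.Agent.SH Pool.Agent.COV

/-- The multiplicity of the ladder variety is the number of the largest good sets. -/
theorem lmq : St_LMQ :=
  I_LMQ (I_WORD SH.I_ORD) (I_UPR I_DETZ I_REAR I_MINT SH.I_UP)
    (I_LOW (I_CURVE I_LEV (I_R1N I_R1) I_MASK) (I_LOWV I_HOMC I_COEFM FinQ.I_VANF))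
    (I_MQG SH.I_HG I_CNTS)

/-- The ladder theorem. -/
theorem ladm : COV.St_LADM :=
  I_LADM lmq (FinQ.I_GOODL I_GGE) I_MAXC (I_TWO (I_MOD I_GGE)) (I_COLB (I_MOD I_GGE))
    (I_ROWA (I_MOD I_GGE)) (I_RHOB I_GGE (FinQ.I_GOODL I_GGE))

end Pool.Agent.LAD
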