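import Pool.Agent.Work.MP_1c6e58_ag.COV.StLADM
import Pool.Agent.Work.MP_1c6e58_ag.SH.Stmts

/-!
MP_1c6e58_ag, project COV, ladder half: definitions.
-/

set_option autoImplicit false

open Finset

namespace Pool.Agent.LAD

open Pool.Agent.SH Pool.Agent.COV

/-! ### Chains, good sets -/

/-- Strictly smaller in both coordinates. -/
def Dlt (c c' : ℕ × ℕ) : Prop := c.1 < c'.1 ∧ c.2 < c'.2

/-- There is a chain of `m` cells of `F` in the rectangle `[0, a) x [0, b)`. -/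
def Chn (F : Finset (ℕ × ℕ)) (m a b : ℕ) : Prop :=
  ∃ s : Fin m → ℕ × ℕ, (∀ i j, i < j → Dlt (s i) (s j)) ∧
    ∀ i, s i ∈ F ∧ (s i).1 < a ∧ (s i).2 < b

section lad

variable {Q : Type} [Fintype Q]

/-- The cells of the ladder. -/
def YY (A B : Q → ℕ) : Finset (ℕ × ℕ) := univ.biUnion fun q => range (A q) ×ˢ range (B q)

theorem mem_YY {A B : Q → ℕ} (c : ℕ × ℕ) : c ∈ YY A B ↔ ∃ q, c.1 < A q ∧ c.2 < B q := by
  simp [YY]

/-- A set of cells of the ladder without chains of `ρ q + 1` cells in the rectangle `q`. -/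
structure Good (A B ρ : Q → ℕ) (F : Finset (ℕ × ℕ)) : Prop where
  sub : F ⊆ YY A B
  nch : ∀ q, ¬ Chn F (ρ q + 1) (A q) (B q)

open Classical in
/-- The good sets with `d` cells. -/
noncomputable def GoodN (A B ρ : Q → ℕ) (d : ℕ) : Finset (Finset (ℕ × ℕ)) :=
  (YY A B).powerset.filter (fun F => Good A B ρ F ∧ F.card = d)

theorem mem_GoodN {A B ρ : Q → ℕ} {d : ℕ} (F : Finset (ℕ × ℕ)) :
    F ∈ GoodN A B ρ d ↔ Good A B ρ F ∧ F.card = d := by
  classical
  simp only [GoodN, mem_filter, mem_powerset]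
  exact ⟨fun h => h.2, fun h => ⟨h.1.sub, h⟩⟩

instance instFintypeLCell (A B : Q → ℕ) : Fintype (LCell A B) :=
  Fintype.subtype (YY A B) mem_YY

/-- `m ≤ g c`, where `g c` is the minimum of `c.1 + 1`, `c.2 + 1` and of the numbers
`ρ q + max (c.1 + 1 - A q) (c.2 + 1 - B q)`, `q ∈ J`. -/
def Gge (A B ρ : Q → ℕ) (J : Set Q) (m : ℕ) (c : ℕ × ℕ) : Prop :=
  m ≤ c.1 + 1 ∧ m ≤ c.2 + 1 ∧
    ∀ q ∈ J, m + A q ≤ ρ q + c.1 + 1 ∨ m + B q ≤ ρ q + c.2 + 1

open Classical in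
/-- The largest good set of the form `1 ≤ g`. -/
noncomputable def FL (A B ρ : Q → ℕ) : Finset (ℕ × ℕ) :=
  (YY A B).filter (fun c => Gge A B ρ Set.univ 1 c)

theorem mem_FL {A B ρ : Q → ℕ} (c : ℕ × ℕ) :
    c ∈ FL A B ρ ↔ c ∈ YY A B ∧ Gge A B ρ Set.univ 1 c := by
  classical
  simp only [FL, mem_filter]

/-- The set `FL` with the cells of `R` moved by `(-1,-1)`. -/
noncomputable def mvd (A B ρ : Q → ℕ) (R : Finset (ℕ × ℕ)) : Finset (ℕ × ℕ) :=
  (FL A B ρ \ R) ∪ R.image (fun r => (r.1 - 1, r.2 - 1))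

open Classical in
/-- The mask of the level `l`. -/
noncomputable def mask (A B ρ : Q → ℕ) (l : ℕ) (c : ℕ × ℕ) : ℂ :=
  if ∃ q, c.1 < A q ∧ c.2 < B q ∧ ρ q < l then 0 else 1

end lad

/-- A set of elements of `LCell` as a set of cells. -/
def cells {Q : Type} {A B : Q → ℕ} (F : Finset (LCell A B)) : Finset (ℕ × ℕ) :=
  F.map (Function.Embedding.subtype _)

theorem mem_cells {Q : Type} {A B : Q → ℕ} (F : Finset (LCell A B)) (c : ℕ × ℕ) :
    c ∈ cells F ↔ ∃ h : (∃ q, c.1 < A q ∧ c.2 < B q), (⟨c, h⟩ : LCell A B) ∈ F := by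
  simp [cells]

/-! ### Orders, exponents -/

/-- The weight of a cell. -/
def wt (c : ℕ × ℕ) : ℤ := -(2 * (c.1 : ℤ) * (c.2 : ℤ))

section alg

variable {σ : Type}

/-- The order `o` refines the weight `w` on the exponents of the same degree. -/
def WOrd [Fintype σ] (o : LOrd σ) (w : σ → ℤ) : Prop :=
  ∀ α β : σ →₀ ℕ, α.degree = β.degree → ∑ c, (α c : ℤ) * w c < ∑ c, (β c : ℤ) * w c →
    o.f α < o.f β

/-- `Z` is a cone. -/
def Cone (Z : Set (σ → ℂ)) : Prop := ∀ z ∈ Z, ∀ a : ℂ, (fun i => a * z i) ∈ Z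

open Classical in
/-- The number of exponents of degree `i` with support `F`. -/
noncomputable def gF [Fintype σ] (F : Finset σ) (i : ℕ) : ℕ :=
  ((Finset.univ.finsuppAntidiag i).filter (fun α : σ →₀ ℕ => α.support = F)).card

/-- The determinant of the matrix of the variables `x i j`. -/
noncomputable def mnr (m : ℕ) (x : Fin m → Fin m → σ) : MvPolynomial σ ℂ :=
  Matrix.det (Matrix.of fun i j => (MvPolynomial.X (x i j) : MvPolynomial σ ℂ))

end alg

end Pool.Agent.LAD
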