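import Pool.Agent.Work.MP_1c6e58_ag.LAD.Stmts

/-!
MP_1c6e58_ag, project COV, ladder half, item COEFM: lowest coefficients of products of powers.
-/

set_option autoImplicit false

open Finset

namespace Pool.Agent.LAD

open Pool.Agent.SH Pool.Agent.COV

theorem I_COEFM : St_COEFM := by
  intro σ _ M v y hM β
  have hdvd : ∀ c, ∃ N : Polynomial ℂ, M c = Polynomial.X ^ (v c) * N := by
    intro c
    exact Polynomial.X_pow_dvd_iff.2 (fun d hd => (hM c).1 d hd)
  choose N hN using hdvd
  have hN0 : ∀ c, (N c).eval 0 = y c := by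
    intro c
    have h := (hM c).2
    rw [hN c, Polynomial.coeff_X_pow_mul'] at h
    simpa [Polynomial.coeff_zero_eq_eval_zero] using h
  have hprod : ∏ c, M c ^ β c = Polynomial.X ^ (∑ c, β c * v c) * ∏ c, N c ^ β c := by
    rw [← Finset.prod_pow_eq_pow_sum, ← Finset.prod_mul_distrib]
    refine Finset.prod_congr rfl fun c _ => ?_
    rw [hN c, mul_pow, ← pow_mul, Nat.mul_comm (v c) (β c)]
  constructor
  · intro i hi
    rw [hprod, Polynomial.coeff_X_pow_mul', if_neg (by omega)]
  · rw [hprod, Polynomial.coeff_X_pow_mul', if_pos le_rfl, Nat.sub_self,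
      Polynomial.coeff_zero_eq_eval_zero, Polynomial.eval_prod]
    refine Finset.prod_congr rfl fun c _ => ?_
    rw [Polynomial.eval_pow, hN0]

end Pool.Agent.LAD
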