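import Pool.Agent.Work.MP_1c6e58_ag.LAD.Stmts

/-!
MP_1c6e58_ag, project COV, ladder half, item GOODL: the set `FL` is good.
-/

set_option autoImplicit false

open Finset

namespace Pool.Agent.LAD

open Pool.Agent.SH Pool.Agent.COV

theorem I_GOODL (hGGE : St_GGE) : St_GOODL := by
  intro Q _ A B ρ
  refine ⟨fun c hc => ((mem_FL c).1 hc).1, ?_⟩
  rintro q ⟨s, hs, hF⟩
  obtain ⟨-, -, h3, h4⟩ := hGGE Q A B ρ Set.univ
  have h0 := ((mem_FL (s 0)).1 (hF 0).1).2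
  have h1 := h4 1 (ρ q) s hs h0
  have h2 := h3 (1 + ρ q) _ q (Set.mem_univ q) h1 (hF (Fin.last _)).2.1 (hF _).2.2
  omega

end Pool.Agent.LAD
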