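import Pool.Agent.Work.MP_1c6e58_ag.LAD.Stmts

/-!
Item LMQ: the multiplicity is the number of the largest good sets.
-/

set_option autoImplicit false

open Finset

namespace Pool.Agent.LAD

open Pool.Agent.SH Pool.Agent.COV

namespace XLMQ

variable {Q : Type} {A B : Q → ℕ}

theorem cells_inj : Function.Injective (cells (A := A) (B := B)) :=
  fun _ _ h => Finset.map_injective _ h

theorem card_cells (F : Finset (LCell A B)) : (cells F).card = F.card := Finset.card_map _

theorem exists_cells [Fintype Q] (F : Finset (ℕ × ℕ)) (h : F ⊆ YY A B) :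
    ∃ F' : Finset (LCell A B), cells F' = F := by
  classical
  refine ⟨univ.filter (fun c : LCell A B => c.1 ∈ F), ?_⟩
  ext c
  rw [mem_cells]
  constructor
  · rintro ⟨hc, h1⟩
    exact (mem_filter.1 h1).2
  · intro hc
    exact ⟨(mem_YY c).1 (h hc), mem_filter.2 ⟨mem_univ _, hc⟩⟩

end XLMQ

open XLMQ in
theorem I_LMQ (hWORD : St_WORD) (hUPR : St_UPR) (hLOW : St_LOW) (hMQG : St_MQG) : St_LMQ := by
  classical
  intro Q _ A B ρ hL d hd hex
  obtain ⟨o, ho⟩ := hWORD (LCell A B) (fun c => wt c.1)
  have key := hMQG (LCell A B) (Zlad A B ρ) o (fun F => Good A B ρ (cells F)) d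
    (fun α => ⟨fun h hg => hLOW Q A B ρ hL o ho α hg h, fun h => hUPR Q A B ρ o ho α h⟩)
    (fun F hF => by
      rw [← card_cells]
      exact hd _ hF)
    (by
      obtain ⟨F, hF, hc⟩ := hex
      obtain ⟨F', rfl⟩ := exists_cells F hF.sub
      exact ⟨F', hF, by rw [← card_cells]; exact hc⟩)
  convert key using 1
  symm
  refine Finset.card_bij (fun F _ => cells F) ?_ ?_ ?_
  · intro F hF
    rw [mem_filter] at hF
    rw [mem_GoodN, card_cells]
    exact hF.2
  · intro F _ F' _ h
    exact cells_inj h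
  · intro F hF
    rw [mem_GoodN] at hF
    obtain ⟨F', rfl⟩ := exists_cells F hF.1.sub
    refine ⟨F', ?_, rfl⟩
    rw [mem_filter]
    rw [card_cells] at hF
    exact ⟨mem_univ _, hF⟩

end Pool.Agent.LAD
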