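import Pool.Agent.Work.MP_1c6e58_ag.LAD.Stmts

set_option autoImplicit false

open Finset

namespace Pool.Agent.LAD

open Pool.Agent.SH Pool.Agent.COV

namespace XREAR

theorem perm_one_of_mono {m : ℕ} (π : Equiv.Perm (Fin m)) (h : Monotone π) : π = 1 := by
  have hs : StrictMono π := h.strictMono_of_injective π.injective
  ext i
  have h1 : (π : Fin m → Fin m) = id := by
    have := Subsingleton.elim (StrictMono.orderIsoOfSurjective π hs π.surjective) (OrderIso.refl _)
    funext j
    have h2 := congrArg (fun e : Fin m ≃o Fin m => e j) this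
    simpa using h2
  have h3 := congrFun h1 i
  simp only [id_eq] at h3
  rw [h3]
  rfl

end XREAR

theorem I_REAR : St_REAR := by
  intro m a b ha hb π hπ
  have hab : Monovary a b := (ha.monotone.monovary hb.monotone)
  rw [Monovary.sum_mul_comp_perm_lt_sum_mul_iff hab]
  intro hmv
  apply hπ
  apply XREAR.perm_one_of_mono
  intro i j hij
  by_contra hlt
  push Not at hlt
  have hne : i ≠ j := by
    rintro rfl
    exact lt_irrefl _ hlt
  have hij' : i < j := lt_of_le_of_ne hij hne
  have h1 : (b ∘ π) j < (b ∘ π) i := hb hlt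
  have h2 := hmv h1
  exact absurd (ha hij') (not_lt.mpr h2)

end Pool.Agent.LAD
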