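import Pool.Agent.Work.MP_1c6e58_ag.LAD.Defs

/-!
MP_1c6e58_ag, project COV, ladder half: statements of the items.
-/

set_option autoImplicit false

open Finset

namespace Pool.Agent.LAD

open Pool.Agent.SH Pool.Agent.COV

/-! ### Block A: orders and counting -/

/-- WORD. Orders which refine the degree and a weight. -/
def St_WORD : Prop := ∀ (σ : Type) [Fintype σ] (w : σ → ℤ), ∃ o : LOrd σ, WOrd o w

/-- CNTS. The series of the exponents with a given support. -/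
def St_CNTS : Prop := ∀ (σ : Type) [Fintype σ] (F : Finset σ),
  PowerSeries.mk (fun i => (gF F i : ℤ)) * (1 - PowerSeries.X) ^ F.card =
    (PowerSeries.X : PowerSeries ℤ) ^ F.card

open Classical in
/-- MQG. The multiplicity if the lowest exponents are determined by a family of supports. -/
def St_MQG : Prop := ∀ (σ : Type) [Fintype σ] (Z : Set (σ → ℂ)) (o : LOrd σ)
  (P : Finset σ → Prop) (d : ℕ),
  (∀ α : σ →₀ ℕ, α ∈ Lset o (MvPolynomial.vanishingIdeal ℂ Z) ↔ ¬ P α.support) →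
  (∀ F, P F → F.card ≤ d) → (∃ F, P F ∧ F.card = d) →
  MQ Z d ((Finset.univ : Finset (Finset σ)).filter (fun F => P F ∧ F.card = d)).card

/-! ### Block B: minors -/

/-- DETZ. Vanishing of minors. -/
def St_DETZ : Prop := ∀ (r : ℕ) (f g : Fin r → ℕ → ℂ) (a b : Fin (r + 1) → ℕ),
  Matrix.det (Matrix.of fun i j : Fin (r + 1) => ∑ l, f l (a i) * g l (b j)) = 0

/-- REAR. The rearrangement inequality. -/
def St_REAR : Prop := ∀ (m : ℕ) (a b : Fin m → ℕ), StrictMono a → StrictMono b →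
  ∀ π : Equiv.Perm (Fin m), π ≠ 1 → ∑ i, a i * b (π i) < ∑ i, a i * b i

/-- MINT. The lowest term of a minor. -/
def St_MINT : Prop := ∀ (σ : Type) [Fintype σ] (w : σ → ℤ) (o : LOrd σ), WOrd o w →
  ∀ (m : ℕ) (x : Fin m → Fin m → σ),
  (∀ π : Equiv.Perm (Fin m), π ≠ 1 → ∑ i, w (x i i) < ∑ i, w (x i (π i))) →
  (∑ i, Finsupp.single (x i i) 1) ∈ (mnr m x).support ∧
    ∀ β ∈ (mnr m x).support, o.f (∑ i, Finsupp.single (x i i) 1) ≤ o.f β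

/-- UPR. Exponents with a long chain in the support are lowest exponents. -/
def St_UPR : Prop := ∀ (Q : Type) [Fintype Q] (A B ρ : Q → ℕ) (o : LOrd (LCell A B)),
  WOrd o (fun c => wt c.1) → ∀ α : LCell A B →₀ ℕ, ¬ Good A B ρ (cells α.support) →
  α ∈ Lset o (MvPolynomial.vanishingIdeal ℂ (Zlad A B ρ))

/-! ### Block C: the algebra of the lower bound -/

/-- HOMC. Homogeneous components of polynomials which vanish on a cone. -/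
def St_HOMC : Prop := ∀ (σ : Type) [Fintype σ] (Z : Set (σ → ℂ)), Cone Z →
  ∀ f ∈ MvPolynomial.vanishingIdeal ℂ Z, ∀ d : ℕ,
    MvPolynomial.homogeneousComponent d f ∈ MvPolynomial.vanishingIdeal ℂ Z

/-- COEFM. Leading coefficients of monomials along a curve. -/
def St_COEFM : Prop := ∀ (σ : Type) [Fintype σ] (M : σ → Polynomial ℂ) (v : σ → ℕ)
  (y : σ → ℂ), (∀ c, (∀ i, i < v c → (M c).coeff i = 0) ∧ (M c).coeff (v c) = y c) →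
  ∀ β : σ →₀ ℕ, (∀ i, i < ∑ c, β c * v c → (∏ c, M c ^ β c).coeff i = 0) ∧
    (∏ c, M c ^ β c).coeff (∑ c, β c * v c) = ∏ c, y c ^ β c

/-- VANF. Polynomials which vanish on the torus of `F`. -/
def St_VANF : Prop := ∀ (σ : Type) [Fintype σ] (F : Finset σ) (p : MvPolynomial σ ℂ),
  (∀ y : σ → ℂ, (∀ c ∈ F, y c ≠ 0) → (∀ c, c ∉ F → y c = 0) → MvPolynomial.eval y p = 0) →
  ∀ α : σ →₀ ℕ, α.support = F → p.coeff α = 0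

/-- LOWV. A criterion for an exponent not to be a lowest exponent. -/
def St_LOWV : Prop := ∀ (σ : Type) [Fintype σ] (o : LOrd σ) (w : σ → ℤ) (v : σ → ℕ) (K : ℤ),
  WOrd o w → (∀ c, (v c : ℤ) = K + w c) → ∀ Z : Set (σ → ℂ), Cone Z → ∀ F : Finset σ,
  (∀ y : σ → ℂ, (∀ c ∈ F, y c ≠ 0) → ∃ M : σ → Polynomial ℂ,
    (∀ T : ℂ, (fun c => (M c).eval T) ∈ Z) ∧
    (∀ c ∈ F, (∀ i, i < v c → (M c).coeff i = 0) ∧ (M c).coeff (v c) = y c) ∧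
    (∀ c, c ∉ F → ∀ i, i ≤ v c → (M c).coeff i = 0)) →
  ∀ α : σ →₀ ℕ, α.support = F → α ∉ Lset o (MvPolynomial.vanishingIdeal ℂ Z)

/-! ### Block D: curves -/

/-- LEV. The level function of a set of cells. -/
def St_LEV : Prop := ∀ F : Finset (ℕ × ℕ), ∃ lev : ℕ × ℕ → ℕ, (∀ c ∈ F, 1 ≤ lev c) ∧
  (∀ c ∈ F, ∀ c' ∈ F, Dlt c c' → lev c < lev c') ∧
  ∀ c ∈ F, ∀ a b, c.1 < a → c.2 < b → ∀ m, m ≤ lev c → Chn F m a b

/-- R1. Products for a set without 2-chains. -/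
def St_R1 : Prop := ∀ (S : ℕ) (G : Finset (ℕ × ℕ)), (∀ c ∈ G, c.2 < S) →
  (∀ c ∈ G, ∀ c' ∈ G, ¬ Dlt c c') → ∃ u t : ℕ → ℤ,
  (∀ c ∈ G, u c.1 + t c.2 = -(2 * (c.1 : ℤ) * (c.2 : ℤ))) ∧
  (∀ a b : ℕ, (a, b) ∉ G → b < S → -(2 * (a : ℤ) * (b : ℤ)) + 1 ≤ u a + t b) ∧
  (∀ a : ℕ, u a + 2 * (S : ℤ) * (a : ℤ) + 1 ≤ u (a + 1) + 2 * (S : ℤ) * ((a : ℤ) + 1)) ∧
  ∀ y : ℕ × ℕ → ℂ, (∀ c ∈ G, y c ≠ 0) → ∃ ξ η : ℕ → ℂ, (∀ a, ξ a ≠ 0) ∧ (∀ b, η b ≠ 0) ∧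
    ∀ c ∈ G, ξ c.1 * η c.2 = y c

/-- R1N. The same with exponents in `ℕ`. -/
def St_R1N : Prop := ∀ (N : ℕ) (G : Finset (ℕ × ℕ)), (∀ c ∈ G, c.1 < N ∧ c.2 < N) →
  (∀ c ∈ G, ∀ c' ∈ G, ¬ Dlt c c') → ∃ K0 : ℕ, ∀ K, K0 ≤ K → ∃ u t : ℕ → ℕ,
  (∀ c ∈ G, u c.1 + t c.2 + 2 * c.1 * c.2 = K) ∧
  (∀ a b : ℕ, a < N → b < N → (a, b) ∉ G → K + 1 ≤ u a + t b + 2 * a * b) ∧
  ∀ y : ℕ × ℕ → ℂ, (∀ c ∈ G, y c ≠ 0) → ∃ ξ η : ℕ → ℂ, ∀ c ∈ G, ξ c.1 * η c.2 = y c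

/-- MASK. The masks are products on the rectangles of rank at least `l`. -/
def St_MASK : Prop := ∀ (Q : Type) [Fintype Q] (A B ρ : Q → ℕ), Ladd A B ρ →
  ∀ (q : Q) (l : ℕ), l ≤ ρ q → ∃ f g : ℕ → ℂ, ∀ c : ℕ × ℕ, c.1 < A q → c.2 < B q →
    mask A B ρ l c = f c.1 * g c.2

/-- CURVE. Curves in the ladder variety. -/
def St_CURVE : Prop := ∀ (Q : Type) [Fintype Q] (A B ρ : Q → ℕ), Ladd A B ρ →
  ∀ F : Finset (ℕ × ℕ), Good A B ρ F → ∃ K0 : ℕ, ∀ K, K0 ≤ K → ∀ y : ℕ × ℕ → ℂ,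
  (∀ c ∈ F, y c ≠ 0) → ∃ M : ℕ × ℕ → Polynomial ℂ,
  (∀ T : ℂ, (fun c : LCell A B => (M c.1).eval T) ∈ Zlad A B ρ) ∧
  (∀ c ∈ F, (∀ i, i + 2 * c.1 * c.2 < K → (M c).coeff i = 0) ∧
    ∀ i, i + 2 * c.1 * c.2 = K → (M c).coeff i = y c) ∧
  (∀ c ∈ YY A B, c ∉ F → ∀ i, i + 2 * c.1 * c.2 ≤ K → (M c).coeff i = 0)

/-- LOW. Exponents with good support are not lowest exponents. -/
def St_LOW : Prop := ∀ (Q : Type) [Fintype Q] (A B ρ : Q → ℕ), Ladd A B ρ →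
  ∀ o : LOrd (LCell A B), WOrd o (fun c => wt c.1) → ∀ α : LCell A B →₀ ℕ,
  Good A B ρ (cells α.support) → α ∉ Lset o (MvPolynomial.vanishingIdeal ℂ (Zlad A B ρ))

/-- LMQ. The multiplicity is the number of the largest good sets. -/
def St_LMQ : Prop := ∀ (Q : Type) [Fintype Q] (A B ρ : Q → ℕ), Ladd A B ρ → ∀ d : ℕ,
  (∀ F, Good A B ρ F → F.card ≤ d) → (∃ F, Good A B ρ F ∧ F.card = d) →
  MQ (Zlad A B ρ) d (GoodN A B ρ d).card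

/-! ### Block E: largest good sets -/

/-- GGE. Basic facts on `Gge`. -/
def St_GGE : Prop := ∀ (Q : Type) [Fintype Q] (A B ρ : Q → ℕ) (J : Set Q),
  (∀ (m m' : ℕ) (c c' : ℕ × ℕ), m' ≤ m → c.1 ≤ c'.1 → c.2 ≤ c'.2 → Gge A B ρ J m c →
    Gge A B ρ J m' c') ∧
  (∀ (m : ℕ) (c c' : ℕ × ℕ), Gge A B ρ J m c → Dlt c c' → Gge A B ρ J (m + 1) c') ∧
  (∀ (m : ℕ) (c : ℕ × ℕ) (q : Q), q ∈ J → Gge A B ρ J m c → c.1 < A q → c.2 < B q →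
    m ≤ ρ q) ∧
  (∀ (m k : ℕ) (s : Fin (k + 1) → ℕ × ℕ), (∀ i j, i < j → Dlt (s i) (s j)) →
    Gge A B ρ J m (s 0) → Gge A B ρ J (m + k) (s (Fin.last k)))

/-- GOODL. The set `FL` is good. -/
def St_GOODL : Prop := ∀ (Q : Type) [Fintype Q] (A B ρ : Q → ℕ), Good A B ρ (FL A B ρ)

/-- MAXC. The set `FL` is a largest good set. -/
def St_MAXC : Prop := ∀ (Q : Type) [Fintype Q] (A B ρ : Q → ℕ) (F : Finset (ℕ × ℕ)),
  Good A B ρ F → F.card ≤ (FL A B ρ).card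

/-- MOD. Other largest good sets. -/
def St_MOD : Prop := ∀ (Q : Type) [Fintype Q] (A B ρ : Q → ℕ) (R : Finset (ℕ × ℕ)),
  R ⊆ FL A B ρ →
  (∀ r ∈ R, 1 ≤ r.1 ∧ 1 ≤ r.2 ∧ ¬ Gge A B ρ Set.univ 2 r ∧
    ∀ q, ρ q = 0 → ¬ (r.1 - 1 < A q ∧ r.2 - 1 < B q)) →
  (∀ r ∈ R, ∀ c ∈ FL A B ρ, c ∉ R → r.1 ≤ c.1 → r.2 ≤ c.2 → Gge A B ρ Set.univ 2 c) →
  mvd A B ρ R ∈ GoodN A B ρ (FL A B ρ).card ∧ FL A B ρ \ mvd A B ρ R = R

open Classical in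
/-- TWO. -/
def St_TWO : Prop := ∀ (Q : Type) [Fintype Q] (A B ρ : Q → ℕ), Ladd A B ρ →
  2 ^ (Finset.univ.filter (fun q : Q => 1 ≤ ρ q)).card ≤ (GoodN A B ρ (FL A B ρ).card).card

/-- COLB. -/
def St_COLB : Prop := ∀ (Q : Type) [Fintype Q] (A B ρ : Q → ℕ), Ladd A B ρ →
  ∀ q, 1 ≤ ρ q → ∀ j, j ≤ B q - ρ q →
    (∀ q', B q' - ρ q' < B q - ρ q → (B q' - ρ q') + j ≤ B q - ρ q) →
    j + 1 ≤ (GoodN A B ρ (FL A B ρ).card).card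

/-- ROWA. -/
def St_ROWA : Prop := ∀ (Q : Type) [Fintype Q] (A B ρ : Q → ℕ), Ladd A B ρ →
  ∀ q, 1 ≤ ρ q → ∀ j, j ≤ A q - ρ q →
    (∀ q', A q' - ρ q' < A q - ρ q → (A q' - ρ q') + j ≤ A q - ρ q) →
    j + 1 ≤ (GoodN A B ρ (FL A B ρ).card).card

/-- RHOB. -/
def St_RHOB : Prop := ∀ (Q : Type) [Fintype Q] (A B ρ : Q → ℕ), Ladd A B ρ →
  ∀ q, ρ q + 1 ≤ (GoodN A B ρ (FL A B ρ).card).card

end Pool.Agent.LAD
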